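import Mathlib

/-! Almost everywhere statements from counts of bad cells (helper55). -/

set_option autoImplicit false

namespace Pool.Agent.T9h55.LT

open Finset Filter Topology MeasureTheory

/-- the number of the cells -/
noncomputable def qq (M : ℕ) (μ : ℝ) : ℕ := ⌊(M : ℝ) * μ⌋₊ + 1

lemma qq_le (M : ℕ) {μ : ℝ} (hμ : 1 ≤ μ) : (qq M μ : ℝ) ≤ (M + 1) * μ := by
  unfold qq
  push_cast
  have := Nat.floor_le (show 0 ≤ (M : ℝ) * μ by positivity)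
  nlinarith

lemma lt_qq {M : ℕ} {μ β : ℝ} (hμ : 0 < μ) (hβ : β < M) : ⌊β * μ⌋₊ < qq M μ := by
  unfold qq
  have : ⌊β * μ⌋₊ ≤ ⌊(M : ℝ) * μ⌋₊ := Nat.floor_mono (by nlinarith)
  omega

lemma le_qq {M : ℕ} (hM : 1 ≤ M) {μ : ℝ} (hμ : 0 ≤ μ) : μ ≤ qq M μ := by
  unfold qq
  push_cast
  have h1 : (1 : ℝ) ≤ M := by exact_mod_cast hM
  have := (Nat.lt_floor_add_one ((M : ℝ) * μ)).le
  nlinarith

open Classical in
/-- one real number -/
lemma vol_one (μ : ℝ) (hμ : 1 ≤ μ) (M : ℕ) (P : ℕ → Prop) (τ : ℝ) (hτ : 0 ≤ τ)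
    (h : (((range (qq M μ)).filter (fun v => ¬ P v)).card : ℝ) ≤ τ * (qq M μ : ℝ)) :
    volume {β : ℝ | 0 < β ∧ β < M ∧ ¬ P ⌊β * μ⌋₊} ≤ ENNReal.ofReal (τ * (M + 1)) := by
  have hμ0 : 0 < μ := by linarith
  set F := (range (qq M μ)).filter (fun v => ¬ P v) with hF
  have hcover : {β : ℝ | 0 < β ∧ β < M ∧ ¬ P ⌊β * μ⌋₊} ⊆
      ⋃ n ∈ F, Set.Ico ((n : ℝ) / μ) (((n : ℝ) + 1) / μ) := by
    rintro β ⟨h1, h2, h3⟩
    rw [Set.mem_iUnion₂]
    refine ⟨⌊β * μ⌋₊, ?_, ?_, ?_⟩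
    · rw [hF, mem_filter, mem_range]
      exact ⟨lt_qq hμ0 h2, h3⟩
    · rw [div_le_iff₀ hμ0]
      exact Nat.floor_le (by positivity)
    · rw [lt_div_iff₀ hμ0]
      exact Nat.lt_floor_add_one _
  calc volume _ ≤ volume (⋃ n ∈ F, Set.Ico ((n : ℝ) / μ) (((n : ℝ) + 1) / μ)) := measure_mono hcover
    _ ≤ ∑ n ∈ F, volume (Set.Ico ((n : ℝ) / μ) (((n : ℝ) + 1) / μ)) := measure_biUnion_finset_le _ _
    _ = ∑ n ∈ F, ENNReal.ofReal (1 / μ) := by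
        refine Finset.sum_congr rfl fun n _ => ?_
        rw [Real.volume_Ico]
        congr 1
        ring
    _ = ENNReal.ofReal (#F / μ) := by
        rw [Finset.sum_const, nsmul_eq_mul, ← ENNReal.ofReal_natCast, ← ENNReal.ofReal_mul (Nat.cast_nonneg _)]
        congr 1
        ring
    _ ≤ _ := by
        refine ENNReal.ofReal_le_ofReal ?_
        rw [div_le_iff₀ hμ0]
        refine h.trans ?_
        have := mul_le_mul_of_nonneg_left (qq_le M hμ) hτ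
        linarith

open Classical in
/-- two real numbers -/
lemma vol_two (lam μ : ℝ) (hl : 1 ≤ lam) (hμ : 1 ≤ μ) (M : ℕ) (P : ℕ → ℕ → Prop) (τ : ℝ) (hτ : 0 ≤ τ)
    (h : (((range (qq M lam) ×ˢ range (qq M μ)).filter (fun z : ℕ × ℕ => ¬ P z.1 z.2)).card : ℝ) ≤
      τ * ((qq M lam : ℝ) * (qq M μ : ℝ))) :
    volume {z : ℝ × ℝ | (0 < z.1 ∧ z.1 < M ∧ 0 < z.2 ∧ z.2 < M) ∧ ¬ P ⌊z.1 * lam⌋₊ ⌊z.2 * μ⌋₊} ≤
      ENNReal.ofReal (τ * (M + 1) ^ 2) := by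
  have hl0 : 0 < lam := by linarith
  have hμ0 : 0 < μ := by linarith
  set F := (range (qq M lam) ×ˢ range (qq M μ)).filter (fun z : ℕ × ℕ => ¬ P z.1 z.2) with hF
  set B : ℕ × ℕ → Set (ℝ × ℝ) := fun w => Set.Ico ((w.1 : ℝ) / lam) (((w.1 : ℝ) + 1) / lam) ×ˢ
    Set.Ico ((w.2 : ℝ) / μ) (((w.2 : ℝ) + 1) / μ) with hB
  have hcover : {z : ℝ × ℝ | (0 < z.1 ∧ z.1 < M ∧ 0 < z.2 ∧ z.2 < M) ∧ ¬ P ⌊z.1 * lam⌋₊ ⌊z.2 * μ⌋₊} ⊆
      ⋃ w ∈ F, B w := by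
    rintro ⟨α, β⟩ ⟨⟨h1, h2, h3, h4⟩, h5⟩
    rw [Set.mem_iUnion₂]
    refine ⟨(⌊α * lam⌋₊, ⌊β * μ⌋₊), ?_, ?_⟩
    · rw [hF, mem_filter, mem_product, mem_range, mem_range]
      exact ⟨⟨lt_qq hl0 h2, lt_qq hμ0 h4⟩, h5⟩
    · rw [hB]
      simp only
      rw [Set.mem_prod]
      refine ⟨⟨?_, ?_⟩, ?_, ?_⟩
      · simp only
        rw [div_le_iff₀ hl0]
        have : 0 < α := h1
        exact Nat.floor_le (by positivity)
      · simp only
        rw [lt_div_iff₀ hl0]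
        exact Nat.lt_floor_add_one _
      · simp only
        rw [div_le_iff₀ hμ0]
        have : 0 < β := h3
        exact Nat.floor_le (by positivity)
      · simp only
        rw [lt_div_iff₀ hμ0]
        exact Nat.lt_floor_add_one _
  calc volume _ ≤ volume (⋃ w ∈ F, B w) := measure_mono hcover
    _ ≤ ∑ w ∈ F, volume (B w) := measure_biUnion_finset_le _ _
    _ = ∑ w ∈ F, ENNReal.ofReal (1 / lam * (1 / μ)) := by
        refine Finset.sum_congr rfl fun w _ => ?_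
        rw [hB]
        simp only
        rw [Measure.volume_eq_prod, Measure.prod_prod, Real.volume_Ico, Real.volume_Ico,
          ← ENNReal.ofReal_mul (by rw [← sub_div]; apply div_nonneg <;> linarith)]
        congr 1
        ring
    _ = ENNReal.ofReal (#F * (1 / lam * (1 / μ))) := by
        rw [Finset.sum_const, nsmul_eq_mul, ← ENNReal.ofReal_natCast, ← ENNReal.ofReal_mul (Nat.cast_nonneg _)]
    _ ≤ _ := by
        refine ENNReal.ofReal_le_ofReal ?_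
        have e : (#F : ℝ) * (1 / lam * (1 / μ)) = #F / (lam * μ) := by
          field_simp
        rw [e, div_le_iff₀ (by positivity)]
        refine h.trans ?_
        have h1 : (qq M lam : ℝ) * (qq M μ : ℝ) ≤ ((M + 1) * lam) * ((M + 1) * μ) :=
          mul_le_mul (qq_le M hl) (qq_le M hμ) (Nat.cast_nonneg _) (by positivity)
        have h2 := mul_le_mul_of_nonneg_left h1 hτ
        calc τ * ((qq M lam : ℝ) * (qq M μ : ℝ)) ≤ τ * (((M + 1) * lam) * ((M + 1) * μ)) := h2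
          _ = τ * (M + 1) ^ 2 * (lam * μ) := by ring

/-- the lemma of Borel and Cantelli -/
lemma ae_of_summable {α : Type*} [MeasurableSpace α] (m : Measure α) (s : ℕ → Set α) (f : ℕ → ℝ) (hf : Summable f)
    (hf0 : ∀ n, 0 ≤ f n) (n₀ : ℕ) (h : ∀ n, n₀ ≤ n → m (s n) ≤ ENNReal.ofReal (f n)) :
    ∀ᵐ x ∂m, ∀ᶠ n in atTop, x ∉ s n := by
  classical
  set s' : ℕ → Set α := fun n => if n₀ ≤ n then s n else ∅ with hs'
  have h1 : ∀ n, m (s' n) ≤ ENNReal.ofReal (f n) := by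
    intro n
    rw [hs']
    simp only
    split_ifs with hn
    · exact h n hn
    · rw [measure_empty]
      exact zero_le
  have h2 : ∑' n, m (s' n) ≠ ⊤ := by
    refine ne_top_of_le_ne_top ?_ (ENNReal.tsum_le_tsum h1)
    rw [← ENNReal.ofReal_tsum_of_nonneg hf0 hf]
    exact ENNReal.ofReal_ne_top
  filter_upwards [ae_eventually_notMem h2] with x hx
  filter_upwards [hx, eventually_ge_atTop n₀] with n hn hn0
  rw [hs'] at hn
  simp only at hn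
  rwa [if_pos hn0] at hn

open Classical in
/-- one real number -/
theorem ae_one (μ : ℕ → ℝ) (P : ℕ → ℕ → Prop) (h0 : ∀ n v, μ n < 1 → P n v) (K : ℝ) (hK : 0 ≤ K) (n₀ : ℕ)
    (h : ∀ n, n₀ ≤ n → 1 ≤ μ n → ∀ M : ℕ, 1 ≤ M →
      (((range (qq M (μ n))).filter (fun v => ¬ P n v)).card : ℝ) ≤ K / (n : ℝ) ^ 2 * (qq M (μ n) : ℝ)) :
    ∀ᵐ β : ℝ, 0 < β → ∀ᶠ n in atTop, P n ⌊β * μ n⌋₊ := by
  have h1 : ∀ M : ℕ, ∀ᵐ β : ℝ, ∀ᶠ n in atTop, β ∉ {β : ℝ | 0 < β ∧ β < ((M + 1 : ℕ) : ℝ) ∧ ¬ P n ⌊β * μ n⌋₊} := by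
    intro M
    refine ae_of_summable volume _ (fun n => K / (n : ℝ) ^ 2 * (((M + 1 : ℕ) : ℝ) + 1)) ?_ ?_ n₀ ?_
    · apply Summable.mul_right
      have := (Real.summable_one_div_nat_pow (p := 2)).2 (by norm_num)
      simpa [div_eq_mul_inv] using this.mul_left K
    · intro n
      positivity
    · intro n hn
      by_cases hμ : 1 ≤ μ n
      · exact vol_one (μ n) hμ (M + 1) (P n) _ (by positivity) (h n hn hμ (M + 1) (by omega))
      · have : {β : ℝ | 0 < β ∧ β < ((M + 1 : ℕ) : ℝ) ∧ ¬ P n ⌊β * μ n⌋₊} = ∅ := by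
          ext β
          simp only [Set.mem_setOf_eq, Set.mem_empty_iff_false, iff_false]
          rintro ⟨_, _, h3⟩
          exact h3 (h0 n _ (not_le.1 hμ))
        rw [this, measure_empty]
        exact zero_le
  rw [← ae_all_iff] at h1
  filter_upwards [h1] with β hβ hβ0
  obtain ⟨M, hM⟩ := exists_nat_gt β
  filter_upwards [hβ M] with n hn
  by_contra hcon
  apply hn
  refine ⟨hβ0, ?_, hcon⟩
  push_cast
  linarith

open Classical in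
/-- two real numbers -/
theorem ae_two (lam μ : ℕ → ℝ) (P : ℕ → ℕ → ℕ → Prop) (h0 : ∀ n u v, lam n < 1 ∨ μ n < 1 → P n u v) (K : ℝ) (hK : 0 ≤ K)
    (n₀ : ℕ) (h : ∀ n, n₀ ≤ n → 1 ≤ lam n → 1 ≤ μ n → ∀ M : ℕ, 1 ≤ M →
      (((range (qq M (lam n)) ×ˢ range (qq M (μ n))).filter (fun z : ℕ × ℕ => ¬ P n z.1 z.2)).card : ℝ) ≤
        K / (n : ℝ) ^ 2 * ((qq M (lam n) : ℝ) * (qq M (μ n) : ℝ))) :
    ∀ᵐ z : ℝ × ℝ, 0 < z.1 → 0 < z.2 → ∀ᶠ n in atTop, P n ⌊z.1 * lam n⌋₊ ⌊z.2 * μ n⌋₊ := by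
  have h1 : ∀ M : ℕ, ∀ᵐ z : ℝ × ℝ, ∀ᶠ n in atTop, z ∉ {z : ℝ × ℝ | (0 < z.1 ∧ z.1 < ((M + 1 : ℕ) : ℝ) ∧ 0 < z.2 ∧
      z.2 < ((M + 1 : ℕ) : ℝ)) ∧ ¬ P n ⌊z.1 * lam n⌋₊ ⌊z.2 * μ n⌋₊} := by
    intro M
    refine ae_of_summable volume _ (fun n => K / (n : ℝ) ^ 2 * (((M + 1 : ℕ) : ℝ) + 1) ^ 2) ?_ ?_ n₀ ?_
    · apply Summable.mul_right
      have := (Real.summable_one_div_nat_pow (p := 2)).2 (by norm_num)
      simpa [div_eq_mul_inv] using this.mul_left K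
    · intro n
      positivity
    · intro n hn
      by_cases hμ : 1 ≤ lam n ∧ 1 ≤ μ n
      · exact vol_two (lam n) (μ n) hμ.1 hμ.2 (M + 1) (P n) _ (by positivity) (h n hn hμ.1 hμ.2 (M + 1) (by omega))
      · have : {z : ℝ × ℝ | (0 < z.1 ∧ z.1 < ((M + 1 : ℕ) : ℝ) ∧ 0 < z.2 ∧
            z.2 < ((M + 1 : ℕ) : ℝ)) ∧ ¬ P n ⌊z.1 * lam n⌋₊ ⌊z.2 * μ n⌋₊} = ∅ := by
          ext z
          simp only [Set.mem_setOf_eq, Set.mem_empty_iff_false, iff_false]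
          rintro ⟨_, h3⟩
          rw [not_and_or, not_le, not_le] at hμ
          exact h3 (h0 n _ _ hμ)
        rw [this, measure_empty]
        exact zero_le
  rw [← ae_all_iff] at h1
  filter_upwards [h1] with z hz h2 h3
  obtain ⟨M, hM⟩ := exists_nat_gt (max z.1 z.2)
  filter_upwards [hz M] with n hn
  by_contra hcon
  apply hn
  have h4 := le_max_left z.1 z.2
  have h5 := le_max_right z.1 z.2
  refine ⟨⟨h2, ?_, h3, ?_⟩, hcon⟩
  · push_cast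
    linarith
  · push_cast
    linarith

end Pool.Agent.T9h55.LT
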