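import Pool.Agent.N794.CG.Pairs

/-! All the integers below `q`, and the change of the coefficients of a curve by a twist of `x`, `y` (helper55). -/

set_option autoImplicit false

namespace Pool.Agent.T9h55.LT

open Finset Filter
open Pool.Agent.R459.Eq
open Pool.Agent.N794.CG
open Pool.Agent.W263.BSD (GoodPrime pointCount)

/-- all the integers below `q` -/
theorem fine_box (δ : ℝ) (hδ : 0 < δ) (hδ1 : δ ≤ 1 / 2) : ∃ W : ℕ, 1 ≤ W ∧ ∃ X₀ : ℕ, ∀ X : ℕ, X₀ ≤ X →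
    ∀ (q : ℕ) [NeZero q] (c : ℤ), FineAt δ X (fun x => (x : ℝ) ^ W ≤ (q : ℝ)) (2 * (X : ℝ) ^ (-(δ / 2)))
      (univ : Finset (ZMod q)) (fun _ => 1 / (q : ℝ)) (fun y => c + ((y.val : ℕ) : ℤ)) := by
  obtain ⟨W, hW, H⟩ := eng_res (fun X => by positivity) (eng_fine δ hδ hδ1)
  obtain ⟨X₀, J⟩ := H 1 (by norm_num)
  refine ⟨W, hW, X₀, fun X hX q _ c s => ?_⟩
  have hq0 : (0 : ℝ) < q := by exact_mod_cast Nat.pos_of_ne_zero (NeZero.ne q)
  have h1 := J X hX (ZMod q) q univ (fun y => y) (q : ℝ) hq0 le_rfl (by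
    intro h hh
    have e : ∑ i : ZMod q, (ZMod.stdAddChar (h * i) : ℂ) = 0 := by
      have h2 := AddChar.sum_mulShift (R := ZMod q) (R' := ℂ) h (ψ := ZMod.stdAddChar) (ZMod.isPrimitive_stdAddChar q)
      rw [if_neg hh] at h2
      simp only [mul_comm h]
      exact_mod_cast h2
    rw [e, norm_zero]
    have hl : 0 ≤ Real.log q := Real.log_natCast_nonneg q
    positivity) c s
  have e1 : (fun i : ZMod q => (c : ℤ) + 1 * ((i.val : ℕ) : ℤ)) = fun y => c + ((y.val : ℕ) : ℤ) := by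
    funext i
    ring
  have e2 : (fun _ : ZMod q => 1 / ((univ : Finset (ZMod q)).card : ℝ)) = fun _ => 1 / (q : ℝ) := by
    funext i
    rw [Finset.card_univ, ZMod.card]
  rw [e1, e2] at h1
  exact h1

/-- the trace of Frobenius -/
def Tr (r : ℤ) (p : ℕ) (a n : ℤ) : Prop := GoodPrime a n p ∧ (p : ℤ) - pointCount a n p = r

lemma pointCount_cast {a n a' n' : ℤ} {p : ℕ} (h1 : ((a : ℤ) : ZMod p) = ((a' : ℤ) : ZMod p))
    (h2 : ((n : ℤ) : ZMod p) = ((n' : ℤ) : ZMod p)) : pointCount a n p = pointCount a' n' p := by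
  unfold pointCount
  rw [h1, h2]

/-- the twist: `(x, y) ↦ (t² x, t³ y)` -/
lemma pointCount_twist {a n a' n' : ℤ} {p : ℕ} [Fact p.Prime] {t : ZMod p} (ht : t ≠ 0)
    (h1 : ((a' : ℤ) : ZMod p) = a * t ^ 4) (h2 : ((n' : ℤ) : ZMod p) = n * t ^ 6) :
    pointCount a' n' p = pointCount a n p := by
  unfold pointCount
  refine Nat.card_congr ?_
  refine
    { toFun := fun q => ⟨(q.1.1 * (t⁻¹) ^ 2, q.1.2 * (t⁻¹) ^ 3), ?_⟩
      invFun := fun q => ⟨(q.1.1 * t ^ 2, q.1.2 * t ^ 3), ?_⟩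
      left_inv := ?_
      right_inv := ?_ }
  · obtain ⟨⟨x, y⟩, hq⟩ := q
    rw [h1, h2] at hq
    show (y * (t⁻¹) ^ 3) ^ 2 = (x * (t⁻¹) ^ 2) ^ 3 + (a : ZMod p) * (x * (t⁻¹) ^ 2) + (n : ZMod p)
    have hq' : y ^ 2 = x ^ 3 + (a : ZMod p) * t ^ 4 * x + (n : ZMod p) * t ^ 6 := hq
    have e : (y * (t⁻¹) ^ 3) ^ 2 = y ^ 2 * (t⁻¹) ^ 6 := by ring
    rw [e, hq']
    field_simp
  · have hq := q.2
    show (q.1.2 * t ^ 3) ^ 2 = (q.1.1 * t ^ 2) ^ 3 + (a' : ZMod p) * (q.1.1 * t ^ 2) + (n' : ZMod p)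
    rw [h1, h2]
    have e : (q.1.2 * t ^ 3) ^ 2 = q.1.2 ^ 2 * t ^ 6 := by ring
    rw [e, hq]
    ring
  · rintro ⟨⟨x, y⟩, hq⟩
    apply Subtype.ext
    apply Prod.ext
    · show x * (t⁻¹) ^ 2 * t ^ 2 = x
      field_simp
    · show y * (t⁻¹) ^ 3 * t ^ 3 = y
      field_simp
  · rintro ⟨⟨x, y⟩, hq⟩
    apply Subtype.ext
    apply Prod.ext
    · show x * t ^ 2 * (t⁻¹) ^ 2 = x
      field_simp
    · show y * t ^ 3 * (t⁻¹) ^ 3 = y
      field_simp

lemma goodPrime_iff {a n : ℤ} {p : ℕ} : GoodPrime a n p ↔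
    p.Prime ∧ (2 * (-4 * (a : ZMod p) ^ 3 - 27 * (n : ZMod p) ^ 2) : ZMod p) ≠ 0 := by
  unfold GoodPrime
  rw [← ZMod.intCast_zmod_eq_zero_iff_dvd]
  push_cast
  rfl

lemma tr_twist {a n a' n' r : ℤ} {p : ℕ} [hp : Fact p.Prime] {t : ZMod p} (ht : t ≠ 0)
    (h1 : ((a' : ℤ) : ZMod p) = a * t ^ 4) (h2 : ((n' : ℤ) : ZMod p) = n * t ^ 6) (h : Tr r p a n) : Tr r p a' n' := by
  unfold Tr at h ⊢
  rw [goodPrime_iff] at h ⊢
  refine ⟨⟨hp.out, ?_⟩, ?_⟩
  · rw [h1, h2]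
    have e : (2 * (-4 * ((a : ZMod p) * t ^ 4) ^ 3 - 27 * ((n : ZMod p) * t ^ 6) ^ 2) : ZMod p) =
        (2 * (-4 * (a : ZMod p) ^ 3 - 27 * (n : ZMod p) ^ 2)) * t ^ 12 := by ring
    rw [e]
    exact mul_ne_zero h.1.2 (pow_ne_zero _ ht)
  · rw [pointCount_twist ht h1 h2]
    exact h.2

lemma tr_per (r : ℤ) (p : ℕ) (_ : p.Prime) (a a' n n' : ℤ) (h : (p : ℤ) ∣ a - a') (h' : (p : ℤ) ∣ n - n') :
    Tr r p a n ↔ Tr r p a' n' := by
  have e1 : ((a : ℤ) : ZMod p) = ((a' : ℤ) : ZMod p) := by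
    rw [← sub_eq_zero, ← Int.cast_sub, ZMod.intCast_zmod_eq_zero_iff_dvd]
    exact h
  have e2 : ((n : ℤ) : ZMod p) = ((n' : ℤ) : ZMod p) := by
    rw [← sub_eq_zero, ← Int.cast_sub, ZMod.intCast_zmod_eq_zero_iff_dvd]
    exact h'
  unfold Tr
  rw [goodPrime_iff, goodPrime_iff, e1, e2, pointCount_cast e1 e2]

lemma tr_uniq (p : ℕ) (a n r r' : ℤ) (h : Tr r p a n) (h' : Tr r' p a n) : r = r' := by
  rw [← h.2, ← h'.2]

open Classical in
/-- the curves with a given first coefficient are at most `8` times as frequent as all curves -/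
theorem dens_le {a r : ℤ} {p : ℕ} (hp : p.Prime) (ha : ¬ (p : ℤ) ∣ a) :
    Pool.Agent.R459.Eq.dens (Tr r) a p ≤ 8 * dens2 (Tr r) p := by
  haveI : Fact p.Prime := ⟨hp⟩
  have hp2 := hp.two_le
  have hp0 : (0 : ℝ) < p := by exact_mod_cast hp.pos
  have haz : ((a : ℤ) : ZMod p) ≠ 0 := by
    rw [Ne, ZMod.intCast_zmod_eq_zero_iff_dvd]
    exact ha
  set N1 := (range p).filter (fun t : ℕ => Tr r p a t) with hN1
  set N2 := (range p ×ˢ range p).filter (fun z : ℕ × ℕ => Tr r p z.1 z.2) with hN2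
  -- the map
  set f : ZMod p × ℕ → ℕ × ℕ := fun y => (((a : ZMod p) * y.1 ^ 4).val, (((y.2 : ℕ) : ZMod p) * y.1 ^ 6).val) with hf
  set D : Finset (ZMod p × ℕ) := ((univ : Finset (ZMod p)).filter (fun t => t ≠ 0)) ×ˢ N1 with hD
  have hmaps : ∀ y ∈ D, f y ∈ N2 := by
    rintro ⟨t, n⟩ hy
    rw [hD, mem_product, mem_filter, hN1, mem_filter] at hy
    obtain ⟨⟨-, ht⟩, hn1, hn2⟩ := hy
    rw [hN2, mem_filter, mem_product, mem_range, mem_range]
    refine ⟨⟨ZMod.val_lt _, ZMod.val_lt _⟩, ?_⟩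
    refine tr_twist ht ?_ ?_ hn2
    · show (((((a : ZMod p) * t ^ 4).val : ℕ) : ℤ) : ZMod p) = a * t ^ 4
      rw [Int.cast_natCast, ZMod.natCast_zmod_val]
    · show ((((((n : ℕ) : ZMod p) * t ^ 6).val : ℕ) : ℤ) : ZMod p) = ((n : ℤ) : ZMod p) * t ^ 6
      rw [Int.cast_natCast, ZMod.natCast_zmod_val, Int.cast_natCast]
  have hfib : ∀ z ∈ N2, (D.filter (fun y => f y = z)).card ≤ 4 := by
    intro z _
    -- the roots of `t ^ 4 = z / a`
    have h1 : (D.filter (fun y => f y = z)).card ≤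
        (Polynomial.nthRoots 4 (((z.1 : ℕ) : ZMod p) * (a : ZMod p)⁻¹)).toFinset.card := by
      refine Finset.card_le_card_of_injOn (fun y => y.1) ?_ ?_
      · rintro ⟨t, n⟩ hy
        rw [Finset.mem_coe, mem_filter, hf] at hy
        have h2 : ((a : ZMod p) * t ^ 4).val = z.1 := congrArg Prod.fst hy.2
        rw [Finset.mem_coe, Multiset.mem_toFinset, Polynomial.mem_nthRoots (by norm_num)]
        show t ^ 4 = _
        rw [← h2, ZMod.natCast_zmod_val]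
        field_simp
      · rintro ⟨t, n⟩ hy ⟨t', n'⟩ hy' htt
        rw [Finset.mem_coe, mem_filter, hf, hD, mem_product, mem_filter, hN1, mem_filter, mem_range] at hy hy'
        have htt' : t = t' := htt
        subst htt'
        have h2 : (((n : ℕ) : ZMod p) * t ^ 6).val = (((n' : ℕ) : ZMod p) * t ^ 6).val :=
          (congrArg Prod.snd hy.2).trans (congrArg Prod.snd hy'.2).symm
        have h3 : ((n : ℕ) : ZMod p) * t ^ 6 = ((n' : ℕ) : ZMod p) * t ^ 6 := ZMod.val_injective p h2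
        have h4 : ((n : ℕ) : ZMod p) = ((n' : ℕ) : ZMod p) := mul_right_cancel₀ (pow_ne_zero 6 hy.1.1.2) h3
        have h5 : n % p = n' % p := (ZMod.natCast_eq_natCast_iff' n n' p).1 h4
        have h6 : n = n' := by
          have h7 := Nat.mod_eq_of_lt hy.1.2.1
          have h8 := Nat.mod_eq_of_lt hy'.1.2.1
          simp only at h7 h8
          omega
        exact Prod.ext rfl h6
    refine h1.trans ((Multiset.toFinset_card_le _).trans ?_)
    exact Polynomial.card_nthRoots 4 _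
  have hcard : D.card ≤ 4 * N2.card := by
    have h1 := Finset.card_eq_sum_card_fiberwise (f := f) (s := D) (t := N2) (fun y hy => hmaps y hy)
    rw [h1]
    calc ∑ z ∈ N2, (D.filter (fun y => f y = z)).card ≤ ∑ z ∈ N2, 4 := Finset.sum_le_sum hfib
      _ = 4 * N2.card := by rw [Finset.sum_const, smul_eq_mul, mul_comm]
  have hDc : D.card = (p - 1) * N1.card := by
    rw [hD, card_product]
    congr 1
    rw [Finset.filter_ne', Finset.card_erase_of_mem (mem_univ _), Finset.card_univ, ZMod.card]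
  rw [hDc] at hcard
  have h1 : (p : ℝ) * N1.card ≤ 8 * N2.card := by
    have h2 : p * N1.card ≤ 2 * ((p - 1) * N1.card) := by
      rw [← mul_assoc]
      exact Nat.mul_le_mul_right _ (by omega)
    have h3 : p * N1.card ≤ 8 * N2.card := by omega
    exact_mod_cast h3
  unfold Pool.Agent.R459.Eq.dens dens2
  rw [← hN1, ← hN2, ← mul_div_assoc, div_le_div_iff₀ hp0 (by positivity)]
  nlinarith

end Pool.Agent.T9h55.LT
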