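import Pool.Agent.T9h55.LT.OneB

/-! Families of elliptic curves with one parameter and non-constant invariant: the number of the members modulo `p` with a given
trace (helper55). -/

set_option autoImplicit false

namespace Pool.Agent.T9h55.LT

open Finset Filter Polynomial
open Pool.Agent.R459.Eq
open Pool.Agent.N794.CG
open Pool.Agent.W263.BSD (GoodPrime pointCount)

/-- the minor of the coefficients of `F ^ 3` and `G ^ 2` -/
noncomputable def mnr (F G : ℤ[X]) (k l : ℕ) : ℤ := (F ^ 3).coeff k * (G ^ 2).coeff l - (F ^ 3).coeff l * (G ^ 2).coeff k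

lemma mnr_ne {F G : ℤ[X]} (h : ∀ u v : ℤ, C u * F ^ 3 + C v * G ^ 2 = 0 → u = 0 ∧ v = 0) : ∃ k l, mnr F G k l ≠ 0 := by
  by_contra hcon
  push Not at hcon
  have h1 : F ^ 3 ≠ 0 := by
    intro h0
    have := (h 1 0 (by rw [h0]; simp)).1
    norm_num at this
  obtain ⟨k, hk⟩ : ∃ k, (F ^ 3).coeff k ≠ 0 := by
    by_contra h2
    push Not at h2
    apply h1
    ext k
    rw [h2 k, coeff_zero]
  have h2 := (h ((G ^ 2).coeff k) (-(F ^ 3).coeff k) (by
    ext l
    rw [coeff_add, coeff_C_mul, coeff_C_mul, coeff_zero]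
    have := hcon k l
    unfold mnr at this
    linarith)).2
  apply hk
  linarith

/-- `F ^ 3` and `G ^ 2` are independent modulo `p` -/
lemma indep_mod {F G : ℤ[X]} {p : ℕ} [Fact p.Prime] {k l : ℕ} (h : ¬ (p : ℤ) ∣ mnr F G k l) (u v : ZMod p)
    (h0 : C u * (F.map (Int.castRingHom (ZMod p))) ^ 3 + C v * (G.map (Int.castRingHom (ZMod p))) ^ 2 = 0) : u = 0 ∧ v = 0 := by
  rw [← Polynomial.map_pow, ← Polynomial.map_pow] at h0
  have hk := congrArg (fun P => coeff P k) h0
  have hl := congrArg (fun P => coeff P l) h0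
  simp only [coeff_add, coeff_C_mul, coeff_zero, coeff_map] at hk hl
  have hm : ((mnr F G k l : ℤ) : ZMod p) ≠ 0 := by
    rw [Ne, ZMod.intCast_zmod_eq_zero_iff_dvd]
    exact h
  have hm' : ((mnr F G k l : ℤ) : ZMod p) = (Int.castRingHom (ZMod p)) ((F ^ 3).coeff k) * (Int.castRingHom (ZMod p)) ((G ^ 2).coeff l) -
      (Int.castRingHom (ZMod p)) ((F ^ 3).coeff l) * (Int.castRingHom (ZMod p)) ((G ^ 2).coeff k) := by
    unfold mnr
    push_cast
    simp
  rw [hm'] at hm
  constructor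
  · by_contra hu
    apply hm
    have e : u * ((Int.castRingHom (ZMod p)) ((F ^ 3).coeff k) * (Int.castRingHom (ZMod p)) ((G ^ 2).coeff l) -
      (Int.castRingHom (ZMod p)) ((F ^ 3).coeff l) * (Int.castRingHom (ZMod p)) ((G ^ 2).coeff k)) = 0 := by
      linear_combination ((Int.castRingHom (ZMod p)) ((G ^ 2).coeff l)) * hk - ((Int.castRingHom (ZMod p)) ((G ^ 2).coeff k)) * hl
    exact (mul_eq_zero.1 e).resolve_left hu
  · by_contra hv
    apply hm
    have e : v * ((Int.castRingHom (ZMod p)) ((F ^ 3).coeff k) * (Int.castRingHom (ZMod p)) ((G ^ 2).coeff l) -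
      (Int.castRingHom (ZMod p)) ((F ^ 3).coeff l) * (Int.castRingHom (ZMod p)) ((G ^ 2).coeff k)) = 0 := by
      linear_combination ((Int.castRingHom (ZMod p)) ((F ^ 3).coeff k)) * hl - ((Int.castRingHom (ZMod p)) ((F ^ 3).coeff l)) * hk
    exact (mul_eq_zero.1 e).resolve_left hv

/-- the degree of the invariant -/
def dg (F G : ℤ[X]) : ℕ := max (3 * F.natDegree) (2 * G.natDegree)

lemma eval_cast (F : ℤ[X]) (p : ℕ) (t : ℤ) :
    ((F.eval t : ℤ) : ZMod p) = (F.map (Int.castRingHom (ZMod p))).eval (t : ZMod p) := by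
  rw [eval_intCast_map]
  simp

open Classical in
/-- the members with a given trace are at most `8 D` times as frequent as among all curves -/
theorem fam_le {F G : ℤ[X]} {k l : ℕ} {r : ℤ} {p : ℕ} (hp : p.Prime) (h : ¬ (p : ℤ) ∣ mnr F G k l) :
    (((range p).filter (fun t : ℕ => Tr r p (F.eval (t : ℤ)) (G.eval (t : ℤ)))).card : ℝ) / p ≤
      8 * dg F G * dens2 (Tr r) p + dg F G / p := by
  have : Fact p.Prime := ⟨hp⟩
  have hp2 := hp.two_le
  have hp0 : (0 : ℝ) < p := by exact_mod_cast hp.pos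
  obtain ⟨f, hf⟩ : ∃ f, f = F.map (Int.castRingHom (ZMod p)) := ⟨_, rfl⟩
  obtain ⟨g, hg⟩ : ∃ g, g = G.map (Int.castRingHom (ZMod p)) := ⟨_, rfl⟩
  have hfd : f.natDegree ≤ F.natDegree := by rw [hf]; exact natDegree_map_le
  have hgd : g.natDegree ≤ G.natDegree := by rw [hg]; exact natDegree_map_le
  have hf0 : f ≠ 0 := by
    intro h0
    have h1 := (indep_mod h 1 0 (by rw [← hf, h0]; simp)).1
    exact one_ne_zero h1
  have hg0 : g ≠ 0 := by
    intro h0
    have h1 := (indep_mod h 0 1 (by rw [← hg, h0]; simp)).2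
    exact one_ne_zero h1
  set D := dg F G with hD
  have hD1 : 3 * F.natDegree ≤ D := le_max_left _ _
  have hD2 : 2 * G.natDegree ≤ D := le_max_right _ _
  set N1 := (range p).filter (fun t : ℕ => Tr r p (F.eval (t : ℤ)) (G.eval (t : ℤ))) with hN1
  set N2 := (range p ×ˢ range p).filter (fun z : ℕ × ℕ => Tr r p z.1 z.2) with hN2
  set S1 := N1.filter (fun t : ℕ => f.eval (t : ZMod p) ≠ 0 ∧ g.eval (t : ZMod p) ≠ 0) with hS1
  -- the zeros of the coefficients
  have hzero : (N1.filter (fun t : ℕ => ¬ (f.eval (t : ZMod p) ≠ 0 ∧ g.eval (t : ZMod p) ≠ 0))).card ≤ D := by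
    have h1 : (N1.filter (fun t : ℕ => ¬ (f.eval (t : ZMod p) ≠ 0 ∧ g.eval (t : ZMod p) ≠ 0))).card ≤
        (f.roots.toFinset ∪ g.roots.toFinset).card := by
      refine Finset.card_le_card_of_injOn (fun t => ((t : ℕ) : ZMod p)) ?_ ?_
      · intro t ht
        rw [Finset.mem_coe, mem_filter, not_and_or, not_not, not_not] at ht
        rw [Finset.mem_coe, mem_union, Multiset.mem_toFinset, Multiset.mem_toFinset, mem_roots hf0, mem_roots hg0]
        exact ht.2
      · intro t ht t' ht' htt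
        rw [Finset.mem_coe, mem_filter, hN1, mem_filter, mem_range] at ht ht'
        have h2 := congrArg ZMod.val htt
        simp only at h2
        rwa [ZMod.val_natCast_of_lt ht.1.1, ZMod.val_natCast_of_lt ht'.1.1] at h2
    have h2 := (Multiset.toFinset_card_le f.roots).trans (card_roots' f)
    have h3 := (Multiset.toFinset_card_le g.roots).trans (card_roots' g)
    have h4 := card_union_le f.roots.toFinset g.roots.toFinset
    omega
  -- the map
  set m : ZMod p × ℕ → ℕ × ℕ := fun y => ((f.eval (y.2 : ZMod p) * y.1 ^ 4).val, (g.eval (y.2 : ZMod p) * y.1 ^ 6).val) with hm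
  set Q : Finset (ZMod p × ℕ) := ((univ : Finset (ZMod p)).filter (fun t => t ≠ 0)) ×ˢ S1 with hQ
  have hev : ∀ t : ℕ, ((F.eval (t : ℤ) : ℤ) : ZMod p) = f.eval (t : ZMod p) := by
    intro t
    rw [eval_cast, hf, Int.cast_natCast]
  have hev' : ∀ t : ℕ, ((G.eval (t : ℤ) : ℤ) : ZMod p) = g.eval (t : ZMod p) := by
    intro t
    rw [eval_cast, hg, Int.cast_natCast]
  have hmaps : ∀ y ∈ Q, m y ∈ N2 := by
    rintro ⟨s, t⟩ hy
    rw [hQ, mem_product, mem_filter, hS1, mem_filter, hN1, mem_filter] at hy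
    obtain ⟨⟨-, hs⟩, ⟨ht1, ht2⟩, ht3⟩ := hy
    rw [hN2, mem_filter, mem_product, mem_range, mem_range]
    refine ⟨⟨ZMod.val_lt _, ZMod.val_lt _⟩, ?_⟩
    refine tr_twist hs ?_ ?_ ht2
    · show (((((f.eval (t : ZMod p)) * s ^ 4).val : ℕ) : ℤ) : ZMod p) = _
      rw [Int.cast_natCast, ZMod.natCast_zmod_val, hev]
    · show (((((g.eval (t : ZMod p)) * s ^ 6).val : ℕ) : ℤ) : ZMod p) = _
      rw [Int.cast_natCast, ZMod.natCast_zmod_val, hev']
  have hfib : ∀ z ∈ N2, (Q.filter (fun y => m y = z)).card ≤ 4 * D := by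
    intro z _
    rcases (Q.filter (fun y => m y = z)).eq_empty_or_nonempty with h0 | ⟨⟨s₀, t₀⟩, hy₀⟩
    · rw [h0, card_empty]
      exact Nat.zero_le _
    have hz1 : ((z.1 : ℕ) : ZMod p) ≠ 0 ∧ ((z.2 : ℕ) : ZMod p) ≠ 0 := by
      rw [mem_filter, hQ, mem_product, mem_filter, hS1, mem_filter, hm] at hy₀
      have e1 : (f.eval (t₀ : ZMod p) * s₀ ^ 4).val = z.1 := congrArg Prod.fst hy₀.2
      have e2 : (g.eval (t₀ : ZMod p) * s₀ ^ 6).val = z.2 := congrArg Prod.snd hy₀.2
      rw [← e1, ← e2, ZMod.natCast_zmod_val, ZMod.natCast_zmod_val]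
      exact ⟨mul_ne_zero hy₀.1.2.2.1 (pow_ne_zero _ hy₀.1.1.2), mul_ne_zero hy₀.1.2.2.2 (pow_ne_zero _ hy₀.1.1.2)⟩
    obtain ⟨a, ha⟩ : ∃ a : ZMod p, a = ((z.1 : ℕ) : ZMod p) := ⟨_, rfl⟩
    obtain ⟨b, hb⟩ : ∃ b : ZMod p, b = ((z.2 : ℕ) : ZMod p) := ⟨_, rfl⟩
    rw [← ha, ← hb] at hz1
    obtain ⟨P, hP⟩ : ∃ P : (ZMod p)[X], P = C (b ^ 2) * f ^ 3 + C (-a ^ 3) * g ^ 2 := ⟨_, rfl⟩
    have hP0 : P ≠ 0 := by
      intro h0
      rw [hP, hf, hg] at h0
      exact pow_ne_zero 2 hz1.2 (indep_mod h _ _ h0).1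
    have hPd : P.natDegree ≤ D := by
      rw [hP]
      refine (natDegree_add_le _ _).trans (max_le ?_ ?_)
      · refine (natDegree_C_mul_le _ _).trans ((natDegree_pow_le).trans ?_)
        exact (Nat.mul_le_mul_left 3 hfd).trans hD1
      · refine (natDegree_C_mul_le _ _).trans ((natDegree_pow_le).trans ?_)
        exact (Nat.mul_le_mul_left 2 hgd).trans hD2
    -- first the `t`, then the `s`
    have hsub : (Q.filter (fun y => m y = z)).card ≤
        ((P.roots.toFinset).sigma (fun τ => (nthRoots 4 (a * (f.eval τ)⁻¹)).toFinset)).card := by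
      refine Finset.card_le_card_of_injOn (fun y => ⟨((y.2 : ℕ) : ZMod p), y.1⟩) ?_ ?_
      · rintro ⟨s, t⟩ hy
        rw [Finset.mem_coe, mem_filter, hQ, mem_product, mem_filter, hS1, mem_filter, hm] at hy
        have e1 : (f.eval (t : ZMod p) * s ^ 4).val = z.1 := congrArg Prod.fst hy.2
        have e2 : (g.eval (t : ZMod p) * s ^ 6).val = z.2 := congrArg Prod.snd hy.2
        have e1' : f.eval (t : ZMod p) * s ^ 4 = a := by rw [ha, ← e1, ZMod.natCast_zmod_val]
        have e2' : g.eval (t : ZMod p) * s ^ 6 = b := by rw [hb, ← e2, ZMod.natCast_zmod_val]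
        have hft : f.eval (t : ZMod p) ≠ 0 := hy.1.2.2.1
        rw [Finset.mem_coe, mem_sigma, Multiset.mem_toFinset, mem_roots hP0, Multiset.mem_toFinset, mem_nthRoots (by norm_num)]
        refine ⟨?_, ?_⟩
        · rw [IsRoot.def, hP, eval_add, eval_mul, eval_mul, eval_C, eval_C, eval_pow, eval_pow, ← e1', ← e2']
          ring
        · show s ^ 4 = _
          rw [← e1']
          field_simp
      · rintro ⟨s, t⟩ hy ⟨s', t'⟩ hy' hst
        rw [Finset.mem_coe, mem_filter, hQ, mem_product, mem_filter, hS1, mem_filter, hN1, mem_filter, mem_range] at hy hy'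
        have h2 : ((t : ℕ) : ZMod p) = ((t' : ℕ) : ZMod p) := congrArg Sigma.fst hst
        have h3 : s = s' := by
          have := (Sigma.mk.inj_iff.1 hst).2
          exact eq_of_heq this
        have h4 := congrArg ZMod.val h2
        have h5 := hy.1.2.1.1
        have h6 := hy'.1.2.1.1
        simp only at h5 h6
        rw [ZMod.val_natCast_of_lt h5, ZMod.val_natCast_of_lt h6] at h4
        exact Prod.ext h3 h4
    refine hsub.trans ?_
    rw [card_sigma]
    calc ∑ τ ∈ P.roots.toFinset, (nthRoots 4 (a * (f.eval τ)⁻¹)).toFinset.card ≤ ∑ τ ∈ P.roots.toFinset, 4 :=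
          sum_le_sum fun τ _ => (Multiset.toFinset_card_le _).trans (card_nthRoots 4 _)
      _ = P.roots.toFinset.card * 4 := by rw [sum_const, smul_eq_mul]
      _ ≤ D * 4 := Nat.mul_le_mul_right _ ((Multiset.toFinset_card_le _).trans ((card_roots' P).trans hPd))
      _ = 4 * D := mul_comm _ _
  have hcard : Q.card ≤ 4 * D * N2.card := by
    have h1 := Finset.card_eq_sum_card_fiberwise (f := m) (s := Q) (t := N2) (fun y hy => hmaps y hy)
    rw [h1]
    calc ∑ z ∈ N2, (Q.filter (fun y => m y = z)).card ≤ ∑ z ∈ N2, 4 * D := Finset.sum_le_sum hfib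
      _ = 4 * D * N2.card := by rw [Finset.sum_const, smul_eq_mul, mul_comm]
  have hQc : Q.card = (p - 1) * S1.card := by
    rw [hQ, card_product]
    congr 1
    rw [Finset.filter_ne', Finset.card_erase_of_mem (mem_univ _), Finset.card_univ, ZMod.card]
  rw [hQc] at hcard
  have h1 : (p : ℝ) * S1.card ≤ 8 * D * N2.card := by
    have h2 : p * S1.card ≤ 2 * ((p - 1) * S1.card) := by
      rw [← mul_assoc]
      exact Nat.mul_le_mul_right _ (by omega)
    have h3 : p * S1.card ≤ 8 * D * N2.card := by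
      calc p * S1.card ≤ 2 * ((p - 1) * S1.card) := h2
        _ ≤ 2 * (4 * D * N2.card) := Nat.mul_le_mul_left _ hcard
        _ = _ := by ring
    exact_mod_cast h3
  have h2 : (N1.card : ℝ) ≤ S1.card + D := by
    have h3 : N1.card = S1.card + (N1.filter (fun t : ℕ => ¬ (f.eval (t : ZMod p) ≠ 0 ∧ g.eval (t : ZMod p) ≠ 0))).card := by
      rw [hS1]
      exact (card_filter_add_card_filter_not _).symm
    have h4 : N1.card ≤ S1.card + D := by omega
    exact_mod_cast h4
  have e : dens2 (Tr r) p = (N2.card : ℝ) / (p : ℝ) ^ 2 := by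
    unfold dens2
    rw [hN2]
  rw [e, div_le_iff₀ hp0]
  have h3 : (8 * (D : ℝ) * ((N2.card : ℝ) / (p : ℝ) ^ 2) + D / p) * p = 8 * D * N2.card / p + D := by
    field_simp
  rw [h3]
  have h4 : (S1.card : ℝ) ≤ 8 * D * N2.card / p := by
    rw [le_div_iff₀ hp0, mul_comm]
    exact h1
  linarith

end Pool.Agent.T9h55.LT
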