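import Pool.Agent.T9h55.LT.Fam

/-! Families of elliptic curves with one parameter: almost all members (helper55). -/

set_option autoImplicit false

namespace Pool.Agent.T9h55.LT

open Finset Filter Polynomial
open Pool.Agent.R459.Eq
open Pool.Agent.R459.Tw (recip_sum)
open Pool.Agent.N794.CG
open Pool.Agent.W263.BSD (GoodPrime pointCount)

variable {ι : Type} {Ω : Finset ι} {w : ι → ℝ} {v : ι → ℤ}

/-- the trace and the class of the prime for the member of a family -/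
def Tf (F G : ℤ[X]) (χ : ℕ → ℕ) (r : ℤ) (j : ℕ) (p : ℕ) (_a n : ℤ) : Prop := Tc χ r j p (F.eval n) (G.eval n)

lemma cntR_tf (F G : ℤ[X]) (χ : ℕ → ℕ) (r : ℤ) (j : ℕ) (a n : ℤ) (x : ℕ) :
    cntR (Tf F G χ r j) a n x = cntR (Tc χ r j) (F.eval n) (G.eval n) x := by
  unfold cntR Tf
  rfl

lemma dvd_eval (F : ℤ[X]) {p : ℕ} {n n' : ℤ} (h : (p : ℤ) ∣ n - n') : (p : ℤ) ∣ F.eval n - F.eval n' :=
  h.trans (sub_dvd_eval_sub n n' F)

/-- all the traces and classes -/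
theorem fam_count {δ : ℝ} (hδ : 0 < δ) {X : ℕ} (hX : ∀ x : ℕ, X ≤ x → 4 ≤ (x : ℝ) ^ (δ / 20)) {R₀ : ℕ → Prop} {τ : ℝ} (hw : ∀ i ∈ Ω, 0 ≤ w i)
    (H : FineAt (δ / 2) X R₀ τ Ω w v) (F G : ℤ[X]) (χ : ℕ → ℕ) :
    Mostly Ω w v (2 * τ) (fun n => ∀ x : ℕ, X ≤ x → R₀ x → ∀ (r : ℤ) (j : ℕ), |(r : ℝ)| ≤ (x : ℝ) ^ (δ / 10) →
      (j : ℝ) ≤ (x : ℝ) ^ (δ / 10) →
      |(cntR (Tc χ r j) (F.eval n) (G.eval n) x : ℝ) - ∑ p ∈ pri x, Pool.Agent.R459.Eq.dens (Tf F G χ r j) 0 p| ≤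
        √(max 1 (∑ p ∈ pri (2 * x), Pool.Agent.R459.Eq.dens (Tf F G χ r j) 0 p)) * (x : ℝ) ^ (δ / 2)) := by
  have hone : ∀ σ : ℤ, σ = 1 ∨ σ = -1 → Mostly Ω w v τ (fun n => ∀ x : ℕ, X ≤ x → R₀ x → ∀ m : ℕ, (m : ℝ) ≤ (x : ℝ) ^ (δ / 4) →
      |(cntR (fun p _a n => Rm χ σ m p (F.eval n) (G.eval n)) 0 n x : ℝ) -
        ∑ p ∈ pri x, Pool.Agent.R459.Eq.dens (fun p _a n => Rm χ σ m p (F.eval n) (G.eval n)) 0 p| ≤
        √(max 1 (∑ p ∈ pri (2 * x), Pool.Agent.R459.Eq.dens (fun p _a n => Rm χ σ m p (F.eval n) (G.eval n)) 0 p)) * (x : ℝ) ^ (δ / 2)) := by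
    intro σ hσ
    have h1 := (H.two_count (fun m p _a n => Rm χ σ m p (F.eval n) (G.eval n))
      (fun m p hp a a' n n' h h' => tc_per χ _ _ p hp _ _ _ _ (dvd_eval F h') (dvd_eval G h'))
      (fun p _ a n Q hQ => rm_few χ hσ p _ _ Q hQ)).1 0
    refine h1.mono fun n hn x hXx hR m hm => (hn x hXx hR).2 m ?_
    have e : δ / 2 / 2 = δ / 4 := by ring
    rw [e]
    exact hm
  have h2 := (hone 1 (Or.inl rfl)).and hw (hone (-1) (Or.inr rfl))
  have e : 2 * τ = τ + τ := by ring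
  rw [e]
  refine h2.mono ?_
  rintro n ⟨h3, h4⟩ x hXx hR r j hr hj
  obtain ⟨σ, hσ, hRm⟩ := rm_pair χ r j
  have hm := rm_index hδ (hX x hXx) hr hj
  rw [← cntR_tf F G χ r j 0]
  have e2 : (fun p _a n => Rm χ σ (Nat.pair r.natAbs j) p (F.eval n) (G.eval n)) = Tf F G χ r j := by
    funext p a n
    rw [hRm]
    rfl
  rcases hσ with h | h
  · rw [h] at e2
    have h5 := h3 x hXx hR _ hm
    rwa [e2] at h5
  · rw [h] at e2
    have h5 := h4 x hXx hR _ hm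
    rwa [e2] at h5

/-- the sum of the proportions for a family -/
lemma sum_fam_le {F G : ℤ[X]} {k l : ℕ} (h : mnr F G k l ≠ 0) (χ : ℕ → ℕ) (r : ℤ) (j : ℕ) (x : ℕ) :
    ∑ p ∈ pri x, Pool.Agent.R459.Eq.dens (Tf F G χ r j) 0 p ≤ 8 * dg F G * md χ r j x +
      (dg F G * (1 + Real.log x) + Real.log |(mnr F G k l : ℝ)| / Real.log 2) := by
  classical
  have h1 := card_dvd h x
  have e : (((pri x).filter (fun p : ℕ => (p : ℤ) ∣ mnr F G k l)).card : ℝ) =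
      ∑ p ∈ pri x, if ((p : ℕ) : ℤ) ∣ mnr F G k l then (1 : ℝ) else 0 := by
    rw [sum_boole]
  rw [e] at h1
  have h2 : (dg F G : ℝ) * ∑ p ∈ pri x, 1 / (p : ℝ) ≤ dg F G * (1 + Real.log x) :=
    mul_le_mul_of_nonneg_left (recip_sum x) (Nat.cast_nonneg _)
  have h3 : ∑ p ∈ pri x, Pool.Agent.R459.Eq.dens (Tf F G χ r j) 0 p ≤ ∑ p ∈ pri x, (8 * dg F G * dens2 (Tc χ r j) p +
      (dg F G * (1 / (p : ℝ)) + if ((p : ℕ) : ℤ) ∣ mnr F G k l then (1 : ℝ) else 0)) := by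
    apply sum_le_sum
    intro p hp
    have hpp := (mem_pri.1 hp).2
    have hp0 : (0 : ℝ) < p := by exact_mod_cast hpp.pos
    have h4 := dens2_nonneg (Tr r) p
    have h5 : (0 : ℝ) ≤ dg F G * (1 / (p : ℝ)) := by positivity
    have h6 : (0 : ℝ) ≤ 8 * dg F G * dens2 (Tr r) p := by positivity
    rw [dens2_tc]
    by_cases hχ : χ p = j
    · rw [if_pos hχ]
      have e2 : Pool.Agent.R459.Eq.dens (Tf F G χ r j) 0 p =
          (((range p).filter (fun t : ℕ => Tr r p (F.eval (t : ℤ)) (G.eval (t : ℤ)))).card : ℝ) / p := by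
        unfold Pool.Agent.R459.Eq.dens Tf Tc
        simp only [hχ, and_true]
      by_cases hd : ((p : ℕ) : ℤ) ∣ mnr F G k l
      · rw [if_pos hd]
        have h7 := dens_le_one (Tf F G χ r j) 0 p
        linarith
      · rw [if_neg hd, e2]
        have h7 := fam_le (r := r) hpp hd
        have e3 : (dg F G : ℝ) * (1 / (p : ℝ)) = dg F G / p := by ring
        rw [e3]
        linarith
    · rw [if_neg hχ]
      have e2 : Pool.Agent.R459.Eq.dens (Tf F G χ r j) 0 p = 0 := by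
        unfold Pool.Agent.R459.Eq.dens Tf Tc
        simp [hχ]
      rw [e2]
      have h7 : (0 : ℝ) ≤ if ((p : ℕ) : ℤ) ∣ mnr F G k l then (1 : ℝ) else 0 := by
        split_ifs <;> norm_num
      linarith
  rw [sum_add_distrib, sum_add_distrib, ← mul_sum, ← mul_sum] at h3
  unfold md
  linarith

/-- products of polynomials with small coefficients -/
lemma coeff_mul_le {P Q : ℤ[X]} {d : ℕ} {B B' : ℤ} (hd : P.natDegree ≤ d) (hB : ∀ k, |P.coeff k| ≤ B) (hB' : ∀ k, |Q.coeff k| ≤ B')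
    (k : ℕ) : |(P * Q).coeff k| ≤ (d + 1) * (B * B') := by
  have hB0 : 0 ≤ B := (abs_nonneg _).trans (hB 0)
  have hB'0 : 0 ≤ B' := (abs_nonneg _).trans (hB' 0)
  rw [coeff_mul]
  have h1 : ∑ z ∈ antidiagonal k, P.coeff z.1 * Q.coeff z.2 =
      ∑ z ∈ (antidiagonal k).filter (fun z => z.1 ≤ d), P.coeff z.1 * Q.coeff z.2 := by
    symm
    apply sum_filter_of_ne
    intro z _ hz
    by_contra hcon
    apply hz
    rw [coeff_eq_zero_of_natDegree_lt (by omega), zero_mul]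
  rw [h1]
  refine (abs_sum_le_sum_abs _ _).trans ?_
  have h2 : ∑ z ∈ (antidiagonal k).filter (fun z => z.1 ≤ d), |P.coeff z.1 * Q.coeff z.2| ≤
      ∑ z ∈ (antidiagonal k).filter (fun z => z.1 ≤ d), B * B' := by
    apply sum_le_sum
    intro z _
    rw [abs_mul]
    exact mul_le_mul (hB _) (hB' _) (abs_nonneg _) hB0
  refine h2.trans ?_
  rw [sum_const, nsmul_eq_mul]
  have h3 : ((antidiagonal k).filter (fun z => z.1 ≤ d)).card ≤ d + 1 := by
    have h4 : ((antidiagonal k).filter (fun z => z.1 ≤ d)).card ≤ (range (d + 1)).card := by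
      refine Finset.card_le_card_of_injOn (fun z => z.1) ?_ ?_
      · intro z hz
        rw [Finset.mem_coe, mem_filter] at hz
        rw [Finset.mem_coe, mem_range]
        have := hz.2
        simp only
        omega
      · intro z hz z' hz' h
        rw [Finset.mem_coe, mem_filter, HasAntidiagonal.mem_antidiagonal] at hz hz'
        simp only at h
        ext
        · exact h
        · omega
    rwa [card_range] at h4
  have h5 : (((antidiagonal k).filter (fun z => z.1 ≤ d)).card : ℤ) ≤ d + 1 := by exact_mod_cast h3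
  exact mul_le_mul_of_nonneg_right h5 (mul_nonneg hB0 hB'0)

/-- the size of the minor -/
lemma mnr_le {F G : ℤ[X]} {N : ℕ} (hN : 1 ≤ N) (hF : F.natDegree ≤ N) (hG : G.natDegree ≤ N) (hFc : ∀ k, |F.coeff k| ≤ 2 ^ N)
    (hGc : ∀ k, |G.coeff k| ≤ 2 ^ N) (k l : ℕ) : |mnr F G k l| ≤ 2 ^ (9 * N) := by
  have h1 : ∀ k, |(F * F).coeff k| ≤ (N + 1) * (2 ^ N * 2 ^ N) := fun k => coeff_mul_le hF hFc hFc k
  have h2 : ∀ k, |(F ^ 3).coeff k| ≤ (N + 1) * (2 ^ N * ((N + 1) * (2 ^ N * 2 ^ N))) := by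
    intro k
    have e : F ^ 3 = F * (F * F) := by ring
    rw [e]
    exact coeff_mul_le hF hFc h1 k
  have h3 : ∀ k, |(G ^ 2).coeff k| ≤ (N + 1) * (2 ^ N * 2 ^ N) := by
    intro k
    have e : G ^ 2 = G * G := by ring
    rw [e]
    exact coeff_mul_le hG hGc hGc k
  have hN1 : ((N : ℤ) + 1) ≤ 2 ^ N := by
    have : N + 1 ≤ 2 ^ N := Nat.lt_two_pow_self
    exact_mod_cast this
  have hp : (0 : ℤ) < 2 ^ N := by positivity
  obtain ⟨y, hy⟩ : ∃ y : ℤ, y = 2 ^ N := ⟨_, rfl⟩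
  rw [← hy] at h1 h2 h3 hN1 hp
  have h4 : ∀ k, |(F ^ 3).coeff k| ≤ y ^ 5 := by
    intro k
    refine (h2 k).trans ?_
    calc ((N : ℤ) + 1) * (y * ((N + 1) * (y * y))) ≤ y * (y * (y * (y * y))) := by gcongr
      _ = y ^ 5 := by ring
  have h5 : ∀ k, |(G ^ 2).coeff k| ≤ y ^ 3 := by
    intro k
    refine (h3 k).trans ?_
    calc ((N : ℤ) + 1) * (y * y) ≤ y * (y * y) := by gcongr
      _ = y ^ 3 := by ring
  have h6 : ∀ k l, |(F ^ 3).coeff k * (G ^ 2).coeff l| ≤ y ^ 8 := by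
    intro k l
    rw [abs_mul]
    calc |(F ^ 3).coeff k| * |(G ^ 2).coeff l| ≤ y ^ 5 * y ^ 3 := mul_le_mul (h4 k) (h5 l) (abs_nonneg _) (by positivity)
      _ = y ^ 8 := by ring
  have h7 : |mnr F G k l| ≤ 2 * y ^ 8 := by
    unfold mnr
    have := abs_sub (( F ^ 3).coeff k * (G ^ 2).coeff l) ((F ^ 3).coeff l * (G ^ 2).coeff k)
    have h8 := h6 k l
    have h9 := h6 l k
    linarith
  refine h7.trans ?_
  have h8 : (2 : ℤ) ≤ y := by
    rw [hy]
    calc (2 : ℤ) = 2 ^ 1 := by norm_num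
      _ ≤ 2 ^ N := pow_le_pow_right₀ (by norm_num) hN
  calc 2 * y ^ 8 ≤ y * y ^ 8 := mul_le_mul_of_nonneg_right h8 (by positivity)
    _ = 2 ^ (9 * N) := by
        rw [hy, ← pow_mul, ← pow_add]
        congr 1
        ring

lemma final_fam (K m m2 D D2 cnt L L2 y : ℝ) (hK : K ≤ 8 * y) (hm2 : 0 ≤ m2) (hy : 4 ≤ y) (hL : L ≤ y)
    (hL2 : L2 ≤ y) (hD : D ≤ K * m + L)
    (hD2 : D2 ≤ K * m2 + L2) (h : |cnt - D| ≤ √(max 1 D2) * y ^ 4) : cnt ≤ K * m + √(max 1 m2) * y ^ 8 := by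
  obtain ⟨s, hs⟩ : ∃ s : ℝ, s = √(max 1 m2) := ⟨_, rfl⟩
  have hs1 : 1 ≤ s := by
    rw [hs, Real.one_le_sqrt]
    exact le_max_left _ _
  have hss : s ^ 2 = max 1 m2 := by
    rw [hs]
    exact Real.sq_sqrt (le_trans zero_le_one (le_max_left _ _))
  have hm2s : m2 ≤ s ^ 2 := by
    rw [hss]
    exact le_max_right _ _
  have h1 : √(max 1 D2) ≤ 3 * s * y := by
    rw [Real.sqrt_le_left (by positivity)]
    apply max_le
    · have h2 : 1 ≤ s * y := one_le_mul_of_one_le_of_one_le hs1 (by linarith)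
      nlinarith
    · have h2 : K * m2 ≤ 8 * y * s ^ 2 := by
        calc K * m2 ≤ 8 * y * m2 := mul_le_mul_of_nonneg_right hK hm2
          _ ≤ 8 * y * s ^ 2 := mul_le_mul_of_nonneg_left hm2s (by linarith)
      have h3 : y ≤ y * s ^ 2 := le_mul_of_one_le_right (by linarith) (one_le_pow₀ hs1)
      have h4 : y * s ^ 2 ≤ y ^ 2 * s ^ 2 := by
        apply mul_le_mul_of_nonneg_right _ (by positivity)
        nlinarith
      have e : (3 * s * y) ^ 2 = 9 * (y ^ 2 * s ^ 2) := by ring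
      rw [e]
      linarith
  have h2 := (abs_le.1 h).2
  have h3 : √(max 1 D2) * y ^ 4 ≤ 3 * s * y * y ^ 4 := mul_le_mul_of_nonneg_right h1 (by positivity)
  have h4 : L ≤ s * y ^ 5 := by
    have h5 : y ≤ y ^ 5 := le_self_pow₀ (by linarith) (by norm_num)
    have h6 : y ^ 5 ≤ s * y ^ 5 := le_mul_of_one_le_left (by positivity) hs1
    linarith
  have h5 : 4 * (s * y ^ 5) ≤ s * y ^ 8 := by
    have h6 : 4 * y ^ 5 ≤ y ^ 8 := by
      have h7 : y ^ 8 = y * y ^ 2 * y ^ 5 := by ring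
      rw [h7]
      apply mul_le_mul_of_nonneg_right _ (by positivity)
      nlinarith
    calc 4 * (s * y ^ 5) = s * (4 * y ^ 5) := by ring
      _ ≤ s * y ^ 8 := mul_le_mul_of_nonneg_left h6 (by linarith)
  rw [← hs]
  have e : 3 * s * y * y ^ 4 = 3 * (s * y ^ 5) := by ring
  rw [e] at h3
  linarith

/-- logarithms -/
lemma log_ev (δ : ℝ) (hδ : 0 < δ) : ∃ x₀ : ℕ, ∀ x : ℕ, x₀ ≤ x → 1 + Real.log ((2 * x : ℕ) : ℝ) ≤ (x : ℝ) ^ δ ∧
    12 ≤ (x : ℝ) ^ δ := by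
  have h1 : Tendsto (fun x : ℕ => (x : ℝ) ^ δ) atTop atTop :=
    (tendsto_rpow_atTop hδ).comp tendsto_natCast_atTop_atTop
  have h2 := (isLittleO_log_rpow_atTop hδ).comp_tendsto tendsto_natCast_atTop_atTop
  have h3 := h2.bound (show (0 : ℝ) < 1 / 2 by norm_num)
  obtain ⟨x₀, hx₀⟩ := eventually_atTop.1 (h3.and (h1.eventually_ge_atTop 12))
  refine ⟨x₀ + 1, fun x hx => ?_⟩
  obtain ⟨h4, h5⟩ := hx₀ x (by omega)
  refine ⟨?_, h5⟩
  simp only [Function.comp_apply, Real.norm_eq_abs] at h4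
  have h6 := (le_abs_self _).trans h4
  rw [abs_of_nonneg (Real.rpow_nonneg (Nat.cast_nonneg x) _)] at h6
  have hx0 : (0 : ℝ) < x := by exact_mod_cast (by omega : 0 < x)
  push_cast
  rw [Real.log_mul (by norm_num) hx0.ne']
  have h7 : Real.log 2 ≤ 1 := by
    have := Real.log_two_lt_d9
    linarith
  linarith

/-- a family with non-constant invariant, of size `N` -/
def Fine (N : ℕ) (F G : ℤ[X]) : Prop := F.natDegree ≤ N ∧ G.natDegree ≤ N ∧ ∃ k l, mnr F G k l ≠ 0 ∧ |mnr F G k l| ≤ 2 ^ N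

/-- families with small coefficients -/
lemma fine_of {F G : ℤ[X]} {N : ℕ} (hN : 1 ≤ N) (hF : F.natDegree ≤ N) (hG : G.natDegree ≤ N) (hFc : ∀ k, |F.coeff k| ≤ 2 ^ N)
    (hGc : ∀ k, |G.coeff k| ≤ 2 ^ N) (h : ∀ u v : ℤ, C u * F ^ 3 + C v * G ^ 2 = 0 → u = 0 ∧ v = 0) : Fine (9 * N) F G := by
  obtain ⟨k, l, hkl⟩ := mnr_ne h
  exact ⟨by omega, by omega, k, l, hkl, mnr_le hN hF hG hFc hGc k l⟩

/-- the bound for a curve -/
def UpK (K : ℝ) (δ : ℝ) (χ : ℕ → ℕ) (x : ℕ) (a n : ℤ) : Prop := ∀ (r : ℤ) (j : ℕ), |(r : ℝ)| ≤ (x : ℝ) ^ (δ / 10) →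
  (j : ℝ) ≤ (x : ℝ) ^ (δ / 10) →
  (cntR (Tc χ r j) a n x : ℝ) ≤ K * md χ r j x + √(max 1 (md χ r j (2 * x))) * (x : ℝ) ^ δ

/-- all the given data -/
def PF (δ : ℝ) (A W D : ℕ) (F G : ℕ → ℤ[X]) (χ : ℕ → ℕ → ℕ) (μ : ℝ) (n v : ℕ) : Prop := ∀ i : ℕ, i < n ^ A →
  ∀ x : ℕ, n ^ D ≤ x → (x : ℝ) ^ W ≤ μ → UpK (8 * dg (F i) (G i)) δ (χ i) x ((F i).eval (v : ℤ)) ((G i).eval (v : ℤ))

open Classical in
theorem bad_fam (δ : ℝ) (hδ : 0 < δ) (hδ1 : δ ≤ 1) (A : ℕ) : ∃ W D : ℕ, 1 ≤ W ∧ 1 ≤ D ∧ ∃ n₀ : ℕ, ∀ n : ℕ, n₀ ≤ n →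
    ∀ (F G : ℕ → ℤ[X]) (χ : ℕ → ℕ → ℕ), (∀ i, Fine (n ^ A) (F i) (G i)) →
    ∀ (μ : ℝ) (q : ℕ), μ ≤ q → 1 ≤ q → (((range q).filter (fun v => ¬ PF δ A W D F G χ μ n v)).card : ℝ) ≤
      4 / (n : ℝ) ^ 2 * (q : ℝ) := by
  obtain ⟨W, hW, X₀, H⟩ := fine_box (δ / 2) (by linarith) (by linarith)
  obtain ⟨C₁, hC₁, hC₁n⟩ := pow_bd (δ / 4) (by linarith) (A + 2)
  obtain ⟨C₂, hC₂, hC₂n⟩ := pow_bd (δ / 32) (by linarith) A
  obtain ⟨x₁, hx₁⟩ := pow_ev (δ / 20) (by linarith)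
  obtain ⟨x₂, hx₂⟩ := log_ev (δ / 32) (by linarith)
  obtain ⟨D, hD⟩ : ∃ D, D = C₁ + C₂ := ⟨_, rfl⟩
  refine ⟨W, D, hW, by omega, X₀ + x₁ + x₂ + 1, fun n hn F G χ hFG μ q hμ hq => ?_⟩
  have : NeZero q := ⟨by omega⟩
  have hn1 : 1 ≤ n := by omega
  have hnC : n ≤ n ^ D := Nat.le_self_pow (by omega) n
  have hq0 : (0 : ℝ) < q := by exact_mod_cast hq
  have hnA : 1 ≤ n ^ A := Nat.one_le_pow _ _ hn1
  set B : ℕ → Finset (ZMod q) := fun i => univ.filter (fun y : ZMod q =>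
    ¬ ∀ x : ℕ, n ^ D ≤ x → (x : ℝ) ^ W ≤ μ → UpK (8 * dg (F i) (G i)) δ (χ i) x ((F i).eval ((y.val : ℕ) : ℤ)) ((G i).eval ((y.val : ℕ) : ℤ))) with hB
  -- each set
  have hone : ∀ i : ℕ, ((B i).card : ℝ) ≤ 4 / (n : ℝ) ^ (A + 2) * q := by
    intro i
    have h1 := fam_count hδ (fun x hx => hx₁ x (by omega)) (fun i _ => by positivity) (H (n ^ D) (by omega) q 0) (F i) (G i) (χ i)
      (B i) (subset_univ _) (by
      intro y hy hgood
      rw [hB, mem_filter] at hy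
      obtain ⟨-, hbad⟩ := hy
      apply hbad
      intro x hx hxW r j hr hj
      have hx1 : 1 ≤ x := by omega
      have hxp : (0 : ℝ) < x := by exact_mod_cast hx1
      have h2 := hgood x hx (hxW.trans hμ) r j hr hj
      obtain ⟨h3, h4⟩ := hx₂ x (by omega)
      have hnz := pow_bd' (by linarith) hn1 (hC₂n D (by omega) n hn1) hx
      obtain ⟨hdF, hdG, k, l, hkl, hml⟩ := hFG i
      obtain ⟨z, hz⟩ : ∃ z : ℝ, z = (x : ℝ) ^ (δ / 32) := ⟨_, rfl⟩
      rw [← hz] at h3 h4 hnz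
      have e4 : z ^ 4 = (x : ℝ) ^ (δ / 8) := by
        rw [hz, ← Real.rpow_natCast, ← Real.rpow_mul hxp.le]
        congr 1
        push_cast
        ring
      have e16 : (z ^ 4) ^ 4 = (x : ℝ) ^ (δ / 2) := by
        rw [e4, ← Real.rpow_natCast, ← Real.rpow_mul hxp.le]
        congr 1
        push_cast
        ring
      have e32 : (z ^ 4) ^ 8 = (x : ℝ) ^ δ := by
        rw [e4, ← Real.rpow_natCast, ← Real.rpow_mul hxp.le]
        congr 1
        push_cast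
        ring
      have hlog : Real.log |(mnr (F i) (G i) k l : ℝ)| / Real.log 2 ≤ 9 * z := by
        have hl2 : 0 < Real.log 2 := Real.log_pos (by norm_num)
        rw [div_le_iff₀ hl2]
        have h5 : Real.log |(mnr (F i) (G i) k l : ℝ)| ≤ Real.log ((2 : ℝ) ^ (n ^ A)) := by
          apply Real.log_le_log
          · rw [abs_pos]
            exact_mod_cast hkl
          · rw [← Int.cast_abs]
            exact_mod_cast hml
        rw [Real.log_pow] at h5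
        push_cast at h5
        have h6 : (n : ℝ) ^ A * Real.log 2 ≤ 9 * z * Real.log 2 := by
          apply mul_le_mul_of_nonneg_right _ hl2.le
          linarith
        linarith
      have hdg : (dg (F i) (G i) : ℝ) ≤ 3 * z := by
        have h5 : dg (F i) (G i) ≤ 3 * n ^ A := by
          unfold dg
          apply max_le <;> omega
        have h6 : (dg (F i) (G i) : ℝ) ≤ 3 * (n : ℝ) ^ A := by exact_mod_cast h5
        linarith
      have hdg0 : (0 : ℝ) ≤ dg (F i) (G i) := Nat.cast_nonneg _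
      have hlx0 : 0 ≤ Real.log (x : ℝ) := Real.log_natCast_nonneg x
      have hlx : Real.log (x : ℝ) ≤ Real.log ((2 * x : ℕ) : ℝ) := by
        apply Real.log_le_log hxp
        push_cast
        linarith
      have hz2 : 12 ≤ z ^ 2 := by nlinarith
      have hz3 : 12 * z ^ 2 ≤ z ^ 4 := by
        have e : z ^ 4 = z ^ 2 * z ^ 2 := by ring
        rw [e]
        exact mul_le_mul_of_nonneg_right hz2 (by positivity)
      have hLL : ∀ t : ℝ, 0 ≤ 1 + t → 1 + t ≤ z → dg (F i) (G i) * (1 + t) + Real.log |(mnr (F i) (G i) k l : ℝ)| / Real.log 2 ≤ z ^ 4 := by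
        intro t ht0 ht
        have h5 : (dg (F i) (G i) : ℝ) * (1 + t) ≤ 3 * z * z := mul_le_mul hdg ht ht0 (by positivity)
        have h6 : 9 * z ≤ 9 * z ^ 2 := by nlinarith
        have h7 : 3 * z * z = 3 * z ^ 2 := by ring
        linarith
      have hK : 8 * (dg (F i) (G i) : ℝ) ≤ 8 * z ^ 4 := by
        have h5 : 12 * z ≤ z ^ 2 := by nlinarith
        nlinarith
      have h5 := final_fam (8 * dg (F i) (G i)) (md (χ i) r j x) (md (χ i) r j (2 * x)) _ _ _ _ _ (z ^ 4) hK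
        (md_nonneg _ _ _ _) (by nlinarith [sq_nonneg z]) (hLL (Real.log x) (by linarith) (by linarith))
        (hLL (Real.log ((2 * x : ℕ) : ℝ)) (by linarith) h3)
        (sum_fam_le hkl (χ i) r j x) (sum_fam_le hkl (χ i) r j (2 * x)) (by rw [e16]; exact h2)
      simp only [zero_add] at h5
      rw [e32] at h5
      exact h5)
    rw [sum_const, nsmul_eq_mul, mul_one_div, div_le_iff₀ hq0] at h1
    refine h1.trans ?_
    apply mul_le_mul_of_nonneg_right _ hq0.le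
    have h2 := hC₁n D (by omega) n hn1
    have e : δ / 2 / 2 = δ / 4 := by ring
    rw [e]
    calc 2 * (2 * ((n ^ D : ℕ) : ℝ) ^ (-(δ / 4))) = 4 * ((n ^ D : ℕ) : ℝ) ^ (-(δ / 4)) := by ring
      _ ≤ 4 * (1 / (n : ℝ) ^ (A + 2)) := by linarith
      _ = _ := by ring
  -- the union
  have hcov : ((range q).filter (fun v => ¬ PF δ A W D F G χ μ n v)).card ≤ ∑ i ∈ range (n ^ A), (B i).card := by
    calc ((range q).filter (fun v => ¬ PF δ A W D F G χ μ n v)).card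
        ≤ ((range (n ^ A)).biUnion B).card := by
          refine Finset.card_le_card_of_injOn (fun v => ((v : ℕ) : ZMod q)) ?_ ?_
          · intro v hv
            rw [Finset.mem_coe, mem_filter, mem_range] at hv
            obtain ⟨hvq, hv⟩ := hv
            unfold PF at hv
            push Not at hv
            obtain ⟨i, hi, x, hx, hxW, hup⟩ := hv
            rw [Finset.mem_coe, mem_biUnion]
            refine ⟨i, mem_range.2 hi, ?_⟩
            rw [hB, mem_filter]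
            refine ⟨mem_univ _, ?_⟩
            intro hall
            apply hup
            have := hall x hx hxW
            rw [ZMod.val_natCast_of_lt hvq] at this
            exact this
          · intro v hv v' hv' h
            rw [Finset.mem_coe, mem_filter, mem_range] at hv hv'
            have h2 := congrArg ZMod.val h
            simp only at h2
            rwa [ZMod.val_natCast_of_lt hv.1, ZMod.val_natCast_of_lt hv'.1] at h2
      _ ≤ _ := card_biUnion_le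
  have hcov' : (((range q).filter (fun v => ¬ PF δ A W D F G χ μ n v)).card : ℝ) ≤ ∑ i ∈ range (n ^ A), ((B i).card : ℝ) := by
    exact_mod_cast hcov
  refine hcov'.trans ?_
  refine (sum_le_sum fun z _ => hone z).trans ?_
  rw [sum_const, card_range, nsmul_eq_mul]
  have hn0 : (0 : ℝ) < n := by exact_mod_cast hn1
  apply le_of_eq
  push_cast
  rw [pow_add]
  field_simp

/-- for `n ≥ 1` -/
def QF' (δ : ℝ) (A W D : ℕ) (F G : ℕ → ℤ[X]) (χ : ℕ → ℕ → ℕ) (μ : ℝ) (n v : ℕ) : Prop := 1 ≤ n → PF δ A W D F G χ μ n v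

/-- **one random parameter** -/
theorem fam_main (δ : ℝ) (hδ : 0 < δ) (hδ1 : δ ≤ 1) (A : ℕ) : ∃ W D : ℕ, 1 ≤ W ∧ 1 ≤ D ∧ ∀ (μ : ℕ → ℝ)
    (F G : ℕ → ℕ → ℤ[X]) (χ : ℕ → ℕ → ℕ → ℕ), (∀ n i, 1 ≤ n → Fine (n ^ A) (F n i) (G n i)) →
    ∀ᵐ β : ℝ, 0 < β → ∀ᶠ n : ℕ in atTop, PF δ A W D (F n) (G n) (χ n) (μ n) n ⌊β * μ n⌋₊ := by
  classical
  obtain ⟨W, D, hW, hD, n₀, H⟩ := bad_fam δ hδ hδ1 A
  refine ⟨W, D, hW, hD, fun μ F G χ ha => ?_⟩
  refine ae_one μ (fun n v => QF' δ A W D (F n) (G n) (χ n) (μ n) n v) ?_ 4 (by norm_num) (n₀ + 1) ?_ |>.mono fun β hβ h0 => ?_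
  · intro n v hμ hn i hi x hx hxW
    exfalso
    have hx1 : (1 : ℝ) ≤ x := by exact_mod_cast (Nat.one_le_pow D n hn).trans hx
    have h1 : (1 : ℝ) ≤ (x : ℝ) ^ W := one_le_pow₀ hx1
    linarith
  · intro n hn hμ M hM
    refine le_trans ?_ (H n (by omega) (F n) (G n) (χ n) (fun i => ha n i (by omega)) (μ n) (qq M (μ n)) (le_qq hM (by linarith)) (by unfold qq; omega))
    refine Nat.cast_le.2 (card_le_card fun v hv => ?_)
    have hv' := mem_filter.1 hv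
    exact mem_filter.2 ⟨hv'.1, fun h => hv'.2 fun _ => h⟩
  · filter_upwards [hβ h0, eventually_ge_atTop 1] with n hn h1
    exact hn h1

end Pool.Agent.T9h55.LT
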