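import Pool.Agent.T9h55.LT.FamB

/-! Families of elliptic curves with one parameter in arbitrary families of integers (helper55). -/

set_option autoImplicit false

namespace Pool.Agent.T9h55.LT

open Finset Filter Polynomial
open Pool.Agent.R459.Eq
open Pool.Agent.R459.Tw (recip_sum)
open Pool.Agent.N794.CG
open Pool.Agent.W263.BSD (GoodPrime pointCount)

/-- the bound for one family -/
theorem fam_up (δ : ℝ) (hδ : 0 < δ) : ∃ X₁ : ℕ, 1 ≤ X₁ ∧ ∀ X : ℕ, X₁ ≤ X → ∀ (ι : Type) (Ω : Finset ι) (w : ι → ℝ) (v : ι → ℤ)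
    (R₀ : ℕ → Prop) (τ : ℝ), (∀ i ∈ Ω, 0 ≤ w i) → FineAt (δ / 2) X R₀ τ Ω w v →
    ∀ (N : ℕ) (F G : ℤ[X]) (χ : ℕ → ℕ), Fine N F G → (N : ℝ) ≤ (X : ℝ) ^ (δ / 32) →
    Mostly Ω w v (2 * τ) (fun t => ∀ x : ℕ, X ≤ x → R₀ x → UpK (8 * dg F G) δ χ x (F.eval t) (G.eval t)) := by
  obtain ⟨x₁, hx₁⟩ := pow_ev (δ / 20) (by linarith)
  obtain ⟨x₂, hx₂⟩ := log_ev (δ / 32) (by linarith)
  refine ⟨x₁ + x₂ + 1, by omega, fun X hX ι Ω w v R₀ τ hw H N F G χ hFG hN => ?_⟩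
  refine (fam_count hδ (fun x hx => hx₁ x (by omega)) hw H F G χ).mono ?_
  intro t hgood x hx hR r j hr hj
  have hx1 : 1 ≤ x := by omega
  have hxp : (0 : ℝ) < x := by exact_mod_cast hx1
  have h2 := hgood x hx hR r j hr hj
  obtain ⟨h3, h4⟩ := hx₂ x (by omega)
  obtain ⟨hdF, hdG, k, l, hkl, hml⟩ := hFG
  obtain ⟨z, hz⟩ : ∃ z : ℝ, z = (x : ℝ) ^ (δ / 32) := ⟨_, rfl⟩
  have hnz : (N : ℝ) ≤ z := by
    rw [hz]
    refine hN.trans ?_
    apply Real.rpow_le_rpow (Nat.cast_nonneg _) _ (by linarith)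
    exact_mod_cast hx
  rw [← hz] at h3 h4
  have e4 : z ^ 4 = (x : ℝ) ^ (δ / 8) := by
    rw [hz, ← Real.rpow_natCast, ← Real.rpow_mul hxp.le]
    congr 1
    push_cast
    ring
  have e16 : (z ^ 4) ^ 4 = (x : ℝ) ^ (δ / 2) := by
    rw [e4, ← Real.rpow_natCast, ← Real.rpow_mul hxp.le]
    congr 1
    push_cast
    ring
  have e32 : (z ^ 4) ^ 8 = (x : ℝ) ^ δ := by
    rw [e4, ← Real.rpow_natCast, ← Real.rpow_mul hxp.le]
    congr 1
    push_cast
    ring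
  have hlog : Real.log |(mnr F G k l : ℝ)| / Real.log 2 ≤ 9 * z := by
    have hl2 : 0 < Real.log 2 := Real.log_pos (by norm_num)
    rw [div_le_iff₀ hl2]
    have h5 : Real.log |(mnr F G k l : ℝ)| ≤ Real.log ((2 : ℝ) ^ N) := by
      apply Real.log_le_log
      · rw [abs_pos]
        exact_mod_cast hkl
      · rw [← Int.cast_abs]
        exact_mod_cast hml
    rw [Real.log_pow] at h5
    have h6 : (N : ℝ) * Real.log 2 ≤ 9 * z * Real.log 2 := by
      apply mul_le_mul_of_nonneg_right _ hl2.le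
      linarith
    linarith
  have hdg : (dg F G : ℝ) ≤ 3 * z := by
    have h5 : dg F G ≤ 3 * N := by
      unfold dg
      apply max_le <;> omega
    have h6 : (dg F G : ℝ) ≤ 3 * (N : ℝ) := by exact_mod_cast h5
    linarith
  have hdg0 : (0 : ℝ) ≤ dg F G := Nat.cast_nonneg _
  have hlx0 : 0 ≤ Real.log (x : ℝ) := Real.log_natCast_nonneg x
  have hlx : Real.log (x : ℝ) ≤ Real.log ((2 * x : ℕ) : ℝ) := by
    apply Real.log_le_log hxp
    push_cast
    linarith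
  have hz2 : 12 ≤ z ^ 2 := by nlinarith
  have hz3 : 12 * z ^ 2 ≤ z ^ 4 := by
    have e : z ^ 4 = z ^ 2 * z ^ 2 := by ring
    rw [e]
    exact mul_le_mul_of_nonneg_right hz2 (by positivity)
  have hLL : ∀ t : ℝ, 0 ≤ 1 + t → 1 + t ≤ z → dg F G * (1 + t) + Real.log |(mnr F G k l : ℝ)| / Real.log 2 ≤ z ^ 4 := by
    intro t ht0 ht
    have h5 : (dg F G : ℝ) * (1 + t) ≤ 3 * z * z := mul_le_mul hdg ht ht0 (by positivity)
    have h6 : 9 * z ≤ 9 * z ^ 2 := by nlinarith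
    have h7 : 3 * z * z = 3 * z ^ 2 := by ring
    linarith
  have hK : 8 * (dg F G : ℝ) ≤ 8 * z ^ 4 := by
    have h5 : 12 * z ≤ z ^ 2 := by nlinarith
    nlinarith
  have h5 := final_fam (8 * dg F G) (md χ r j x) (md χ r j (2 * x)) _ _ _ _ _ (z ^ 4) hK
    (md_nonneg _ _ _ _) (by nlinarith [sq_nonneg z]) (hLL (Real.log x) (by linarith) (by linarith))
    (hLL (Real.log ((2 * x : ℕ) : ℝ)) (by linarith) h3)
    (sum_fam_le hkl χ r j x) (sum_fam_le hkl χ r j (2 * x)) (by rw [e16]; exact h2)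
  rw [e32] at h5
  exact h5

/-- finitely many properties -/
lemma mostly_all {ι : Type} {Ω : Finset ι} {w : ι → ℝ} {v : ι → ℤ} {τ : ℝ} (hw : ∀ i ∈ Ω, 0 ≤ w i) (P : ℕ → ℤ → Prop) (I : ℕ)
    (h : ∀ i, i < I → Mostly Ω w v τ (P i)) : Mostly Ω w v (I * τ) (fun t => ∀ i, i < I → P i t) := by
  induction I with
  | zero =>
    refine Mostly.of_all (by simp) fun n i hi => ?_
    omega
  | succ I ih =>
    have h1 := (ih fun i hi => h i (by omega)).and hw (h I (by omega))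
    have e : ((I + 1 : ℕ) : ℝ) * τ = I * τ + τ := by
      push_cast
      ring
    rw [e]
    refine h1.mono fun t ht i hi => ?_
    rcases Nat.lt_succ_iff_lt_or_eq.1 hi with h2 | h2
    · exact ht.1 i h2
    · rw [h2]
      exact ht.2

end Pool.Agent.T9h55.LT
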