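import Pool.Agent.T9h55.LT.Box
import Pool.Agent.T9h55.LT.Ae

/-! Counts of primes in classes (helper55). -/

set_option autoImplicit false

namespace Pool.Agent.T9h55.LT

open Finset Filter
open Pool.Agent.R459.Eq
open Pool.Agent.N794.CG
open Pool.Agent.W263.BSD (GoodPrime pointCount)

variable {ι : Type} {Ω : Finset ι} {w : ι → ℝ} {v : ι → ℤ}

/-- the trace and the class of the prime -/
def Tc (χ : ℕ → ℕ) (r : ℤ) (j : ℕ) (p : ℕ) (a n : ℤ) : Prop := Tr r p a n ∧ χ p = j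

lemma tc_per (χ : ℕ → ℕ) (r : ℤ) (j : ℕ) (p : ℕ) (hp : p.Prime) (a a' n n' : ℤ) (h : (p : ℤ) ∣ a - a') (h' : (p : ℤ) ∣ n - n') :
    Tc χ r j p a n ↔ Tc χ r j p a' n' := by
  unfold Tc
  rw [tr_per r p hp a a' n n' h h']

/-- the property with the number `m` -/
def Rm (χ : ℕ → ℕ) (σ : ℤ) (m : ℕ) (p : ℕ) (a n : ℤ) : Prop := Tc χ (σ * (m.unpair.1 : ℕ)) m.unpair.2 p a n

lemma rm_few (χ : ℕ → ℕ) {σ : ℤ} (hσ : σ = 1 ∨ σ = -1) (p : ℕ) (a n : ℤ) (Q : Finset ℕ) (hQ : ∀ m ∈ Q, Rm χ σ m p a n) :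
    Q.card ≤ Nat.log 2 p + 3 := by
  have h1 : Q.card ≤ 1 := by
    rw [card_le_one]
    intro m hm m' hm'
    have h2 := tr_uniq p a n _ _ (hQ m hm).1 (hQ m' hm').1
    have h3 : m.unpair.2 = m'.unpair.2 := (hQ m hm).2.symm.trans (hQ m' hm').2
    have h4 : m.unpair.1 = m'.unpair.1 := by
      have : ((m.unpair.1 : ℕ) : ℤ) = (m'.unpair.1 : ℕ) := by
        rcases hσ with h | h <;> rw [h] at h2 <;> linarith
      exact_mod_cast this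
    rw [← Nat.pair_unpair m, ← Nat.pair_unpair m', h3, h4]
  omega

/-- the number of a pair -/
lemma rm_index {δ : ℝ} {x : ℕ} (hδ : 0 < δ) (hx : 4 ≤ (x : ℝ) ^ (δ / 20)) {r : ℤ} {j : ℕ} (hr : |(r : ℝ)| ≤ (x : ℝ) ^ (δ / 10))
    (hj : (j : ℝ) ≤ (x : ℝ) ^ (δ / 10)) : ((Nat.pair r.natAbs j : ℕ) : ℝ) ≤ (x : ℝ) ^ (δ / 4) := by
  have hx0 : (0 : ℝ) ≤ x := Nat.cast_nonneg x
  obtain ⟨y, hy⟩ : ∃ y : ℝ, y = (x : ℝ) ^ (δ / 20) := ⟨_, rfl⟩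
  have e2 : (x : ℝ) ^ (δ / 10) = y ^ 2 := by
    rw [hy, ← Real.rpow_natCast, ← Real.rpow_mul hx0]
    congr 1
    push_cast
    ring
  have e5 : (x : ℝ) ^ (δ / 4) = y ^ 5 := by
    rw [hy, ← Real.rpow_natCast, ← Real.rpow_mul hx0]
    congr 1
    push_cast
    ring
  rw [← hy] at hx
  rw [e2] at hr hj
  rw [e5]
  have h1 : ((r.natAbs : ℕ) : ℝ) ≤ y ^ 2 := by
    have : ((r.natAbs : ℕ) : ℝ) = |(r : ℝ)| := by
      rw [← Int.cast_abs, Int.abs_eq_natAbs]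
      rfl
    rw [this]
    exact hr
  have h2 : (Nat.pair r.natAbs j : ℕ) < (max r.natAbs j + 1) ^ 2 := Nat.pair_lt_max_add_one_sq _ _
  have h3 : ((Nat.pair r.natAbs j : ℕ) : ℝ) ≤ (y ^ 2 + 1) ^ 2 := by
    have h4 : ((Nat.pair r.natAbs j : ℕ) : ℝ) ≤ (((max r.natAbs j + 1) ^ 2 : ℕ) : ℝ) := by exact_mod_cast h2.le
    refine h4.trans ?_
    push_cast
    apply pow_le_pow_left₀ (by positivity)
    have h5 : max ((r.natAbs : ℕ) : ℝ) ((j : ℕ) : ℝ) ≤ y ^ 2 := max_le h1 hj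
    linarith
  refine h3.trans ?_
  have h6 : y ^ 2 + 1 ≤ 2 * y ^ 2 := by nlinarith
  calc (y ^ 2 + 1) ^ 2 ≤ (2 * y ^ 2) ^ 2 := pow_le_pow_left₀ (by positivity) h6 2
    _ = 4 * y ^ 4 := by ring
    _ ≤ y * y ^ 4 := mul_le_mul_of_nonneg_right hx (by positivity)
    _ = y ^ 5 := by ring

/-- the property of a pair -/
lemma rm_pair (χ : ℕ → ℕ) (r : ℤ) (j : ℕ) : ∃ σ : ℤ, (σ = 1 ∨ σ = -1) ∧ Rm χ σ (Nat.pair r.natAbs j) = Tc χ r j := by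
  rcases Int.natAbs_eq r with h | h
  · refine ⟨1, Or.inl rfl, ?_⟩
    funext p a n
    unfold Rm
    rw [Nat.unpair_pair]
    have e : (1 : ℤ) * (r.natAbs : ℕ) = r := by omega
    rw [e]
  · refine ⟨-1, Or.inr rfl, ?_⟩
    funext p a n
    unfold Rm
    rw [Nat.unpair_pair]
    have e : (-1 : ℤ) * (r.natAbs : ℕ) = r := by omega
    rw [e]

/-- all the traces and classes -/
theorem one_count {δ : ℝ} (hδ : 0 < δ) {X : ℕ} (hX : ∀ x : ℕ, X ≤ x → 4 ≤ (x : ℝ) ^ (δ / 20)) {R₀ : ℕ → Prop} {τ : ℝ} (hw : ∀ i ∈ Ω, 0 ≤ w i)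
    (H : FineAt (δ / 2) X R₀ τ Ω w v) (χ : ℕ → ℕ) (a : ℤ) :
    Mostly Ω w v (2 * τ) (fun n => ∀ x : ℕ, X ≤ x → R₀ x → ∀ (r : ℤ) (j : ℕ), |(r : ℝ)| ≤ (x : ℝ) ^ (δ / 10) →
      (j : ℝ) ≤ (x : ℝ) ^ (δ / 10) →
      |(cntR (Tc χ r j) a n x : ℝ) - ∑ p ∈ pri x, Pool.Agent.R459.Eq.dens (Tc χ r j) a p| ≤
        √(max 1 (∑ p ∈ pri (2 * x), Pool.Agent.R459.Eq.dens (Tc χ r j) a p)) * (x : ℝ) ^ (δ / 2)) := by
  have hone : ∀ σ : ℤ, σ = 1 ∨ σ = -1 → Mostly Ω w v τ (fun n => ∀ x : ℕ, X ≤ x → R₀ x → ∀ m : ℕ, (m : ℝ) ≤ (x : ℝ) ^ (δ / 4) →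
      |(cntR (Rm χ σ m) a n x : ℝ) - ∑ p ∈ pri x, Pool.Agent.R459.Eq.dens (Rm χ σ m) a p| ≤
        √(max 1 (∑ p ∈ pri (2 * x), Pool.Agent.R459.Eq.dens (Rm χ σ m) a p)) * (x : ℝ) ^ (δ / 2)) := by
    intro σ hσ
    have h1 := (H.two_count (Rm χ σ) (fun m p hp a a' n n' h h' => tc_per χ _ _ p hp a a' n n' h h')
      (fun p _ a n Q hQ => rm_few χ hσ p a n Q hQ)).1 a
    refine h1.mono fun n hn x hXx hR m hm => (hn x hXx hR).2 m ?_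
    have e : δ / 2 / 2 = δ / 4 := by ring
    rw [e]
    exact hm
  have h2 := (hone 1 (Or.inl rfl)).and hw (hone (-1) (Or.inr rfl))
  have e : 2 * τ = τ + τ := by ring
  rw [e]
  refine h2.mono ?_
  rintro n ⟨h3, h4⟩ x hXx hR r j hr hj
  obtain ⟨σ, hσ, hRm⟩ := rm_pair χ r j
  have hm := rm_index hδ (hX x hXx) hr hj
  rcases hσ with h | h
  · rw [h] at hRm
    have h5 := h3 x hXx hR _ hm
    rwa [hRm] at h5
  · rw [h] at hRm
    have h5 := h4 x hXx hR _ hm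
    rwa [hRm] at h5

open Classical in
/-- the number of the primes which divide `a` -/
lemma card_dvd {a : ℤ} (ha : a ≠ 0) (x : ℕ) : (((pri x).filter (fun p : ℕ => (p : ℤ) ∣ a)).card : ℝ) ≤ Real.log |(a : ℝ)| / Real.log 2 := by
  have ha' : a.natAbs ≠ 0 := Int.natAbs_ne_zero.2 ha
  have h1 : ((pri x).filter (fun p : ℕ => (p : ℤ) ∣ a)) ⊆ a.natAbs.primeFactors := by
    intro p hp
    rw [mem_filter, mem_pri] at hp
    rw [Nat.mem_primeFactors]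
    exact ⟨hp.1.2, Int.natCast_dvd.1 hp.2, ha'⟩
  have h2 : 2 ^ a.natAbs.primeFactors.card ≤ a.natAbs := by
    calc 2 ^ a.natAbs.primeFactors.card = ∏ _p ∈ a.natAbs.primeFactors, 2 := by rw [prod_const]
      _ ≤ ∏ p ∈ a.natAbs.primeFactors, p := prod_le_prod' fun p hp => (Nat.prime_of_mem_primeFactors hp).two_le
      _ ≤ a.natAbs := Nat.le_of_dvd (Nat.pos_of_ne_zero ha') (Nat.prod_primeFactors_dvd _)
  have hl2 : 0 < Real.log 2 := Real.log_pos (by norm_num)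
  rw [le_div_iff₀ hl2]
  have h3 : (2 : ℝ) ^ ((pri x).filter (fun p : ℕ => (p : ℤ) ∣ a)).card ≤ |(a : ℝ)| := by
    have h4 : |(a : ℝ)| = (a.natAbs : ℝ) := by
      rw [← Int.cast_abs, Int.abs_eq_natAbs]
      rfl
    rw [h4]
    have h5 : 2 ^ ((pri x).filter (fun p : ℕ => (p : ℤ) ∣ a)).card ≤ a.natAbs :=
      (Nat.pow_le_pow_right (by norm_num) (card_le_card h1)).trans h2
    exact_mod_cast h5
  have h4 := Real.log_le_log (by positivity) h3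
  rwa [Real.log_pow] at h4

lemma dens_nonneg (R : ℕ → ℤ → ℤ → Prop) (a : ℤ) (p : ℕ) : 0 ≤ Pool.Agent.R459.Eq.dens R a p := by
  unfold Pool.Agent.R459.Eq.dens
  positivity

lemma dens_le_one (R : ℕ → ℤ → ℤ → Prop) (a : ℤ) (p : ℕ) : Pool.Agent.R459.Eq.dens R a p ≤ 1 := by
  classical
  unfold Pool.Agent.R459.Eq.dens
  apply div_le_one_of_le₀ _ (Nat.cast_nonneg _)
  have h := card_filter_le (range p) (fun t : ℕ => R p a t)
  rw [card_range] at h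
  exact_mod_cast h

lemma dens_tc (χ : ℕ → ℕ) (r : ℤ) (j : ℕ) (a : ℤ) (p : ℕ) :
    Pool.Agent.R459.Eq.dens (Tc χ r j) a p = if χ p = j then Pool.Agent.R459.Eq.dens (Tr r) a p else 0 := by
  classical
  unfold Pool.Agent.R459.Eq.dens Tc
  split_ifs with h
  · simp [h]
  · simp [h]

lemma dens2_tc (χ : ℕ → ℕ) (r : ℤ) (j : ℕ) (p : ℕ) :
    dens2 (Tc χ r j) p = if χ p = j then dens2 (Tr r) p else 0 := by
  classical
  unfold dens2 Tc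
  split_ifs with h
  · simp [h]
  · simp [h]

/-- the sum of the proportions for a first coefficient -/
lemma sum_dens_le {a : ℤ} (ha : a ≠ 0) (χ : ℕ → ℕ) (r : ℤ) (j : ℕ) (x : ℕ) :
    ∑ p ∈ pri x, Pool.Agent.R459.Eq.dens (Tc χ r j) a p ≤ 8 * ∑ p ∈ pri x, dens2 (Tc χ r j) p + Real.log |(a : ℝ)| / Real.log 2 := by
  classical
  refine le_trans ?_ (add_le_add le_rfl (card_dvd ha x))
  have e : (((pri x).filter (fun p : ℕ => (p : ℤ) ∣ a)).card : ℝ) = ∑ p ∈ pri x, if ((p : ℕ) : ℤ) ∣ a then (1 : ℝ) else 0 := by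
    rw [sum_boole]
  rw [e, mul_sum, ← sum_add_distrib]
  apply sum_le_sum
  intro p hp
  have hpp := (mem_pri.1 hp).2
  rw [dens_tc, dens2_tc]
  have h2 := dens2_nonneg (Tr r) p
  by_cases h : (p : ℤ) ∣ a
  · rw [if_pos h]
    have h1 := dens_le_one (Tr r) a p
    split_ifs <;> linarith
  · rw [if_neg h, add_zero]
    split_ifs
    · exact dens_le hpp h
    · simp

end Pool.Agent.T9h55.LT
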