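import Pool.Agent.T9h55.LT.One

/-! One random coefficient: the number of the bad members (helper55). -/

set_option autoImplicit false

namespace Pool.Agent.T9h55.LT

open Finset Filter
open Pool.Agent.R459.Eq
open Pool.Agent.N794.CG
open Pool.Agent.W263.BSD (GoodPrime pointCount)

/-- the sum of the proportions of the pairs -/
noncomputable def md (χ : ℕ → ℕ) (r : ℤ) (j : ℕ) (x : ℕ) : ℝ := ∑ p ∈ pri x, dens2 (Tc χ r j) p

lemma md_nonneg (χ : ℕ → ℕ) (r : ℤ) (j : ℕ) (x : ℕ) : 0 ≤ md χ r j x := sum_nonneg fun p _ => dens2_nonneg _ p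

/-- the bound for a curve -/
def Up (δ : ℝ) (χ : ℕ → ℕ) (x : ℕ) (a n : ℤ) : Prop := ∀ (r : ℤ) (j : ℕ), |(r : ℝ)| ≤ (x : ℝ) ^ (δ / 10) →
  (j : ℝ) ≤ (x : ℝ) ^ (δ / 10) →
  (cntR (Tc χ r j) a n x : ℝ) ≤ 8 * md χ r j x + √(max 1 (md χ r j (2 * x))) * (x : ℝ) ^ δ

lemma final_one (m m2 D D2 cnt L y : ℝ) (hm : 0 ≤ m) (hm2 : 0 ≤ m2) (hy : 4 ≤ y) (hL : L ≤ y) (hD : D ≤ 8 * m + L)
    (hD2 : D2 ≤ 8 * m2 + L) (h : |cnt - D| ≤ √(max 1 D2) * y ^ 4) : cnt ≤ 8 * m + √(max 1 m2) * y ^ 8 := by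
  obtain ⟨s, hs⟩ : ∃ s : ℝ, s = √(max 1 m2) := ⟨_, rfl⟩
  have hs1 : 1 ≤ s := by
    rw [hs, Real.one_le_sqrt]
    exact le_max_left _ _
  have hss : s ^ 2 = max 1 m2 := by
    rw [hs]
    exact Real.sq_sqrt (le_trans zero_le_one (le_max_left _ _))
  have hm2s : m2 ≤ s ^ 2 := by
    rw [hss]
    exact le_max_right _ _
  have h1 : √(max 1 D2) ≤ 3 * s * y := by
    rw [Real.sqrt_le_left (by positivity)]
    apply max_le
    · have h2 : 1 ≤ s * y := one_le_mul_of_one_le_of_one_le hs1 (by linarith)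
      nlinarith
    · have h2 : s ^ 2 ≤ s ^ 2 * y ^ 2 := by
        apply le_mul_of_one_le_right (by positivity)
        nlinarith
      have h3 : y ≤ s ^ 2 * y ^ 2 := by
        have h4 : y ≤ y ^ 2 := by nlinarith
        have h5 : y ^ 2 ≤ s ^ 2 * y ^ 2 := by
          apply le_mul_of_one_le_left (by positivity)
          nlinarith
        linarith
      have e : (3 * s * y) ^ 2 = 9 * (s ^ 2 * y ^ 2) := by ring
      rw [e]
      linarith
  have h2 := (abs_le.1 h).2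
  have h3 : √(max 1 D2) * y ^ 4 ≤ 3 * s * y * y ^ 4 := mul_le_mul_of_nonneg_right h1 (by positivity)
  have h4 : L ≤ s * y ^ 5 := by
    have h5 : y ≤ y ^ 5 := le_self_pow₀ (by linarith) (by norm_num)
    have h6 : y ^ 5 ≤ s * y ^ 5 := le_mul_of_one_le_left (by positivity) hs1
    linarith
  have h5 : 4 * (s * y ^ 5) ≤ s * y ^ 8 := by
    have h6 : 4 * y ^ 5 ≤ y ^ 8 := by
      have h7 : y ^ 8 = y * y ^ 2 * y ^ 5 := by ring
      rw [h7]
      apply mul_le_mul_of_nonneg_right _ (by positivity)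
      nlinarith
    calc 4 * (s * y ^ 5) = s * (4 * y ^ 5) := by ring
      _ ≤ s * y ^ 8 := mul_le_mul_of_nonneg_left h6 (by linarith)
  rw [← hs]
  have e : 3 * s * y * y ^ 4 = 3 * (s * y ^ 5) := by ring
  rw [e] at h3
  linarith

/-- powers of `x` are large -/
lemma pow_ev (δ : ℝ) (hδ : 0 < δ) : ∃ x₀ : ℕ, ∀ x : ℕ, x₀ ≤ x → 4 ≤ (x : ℝ) ^ δ := by
  have h1 : Tendsto (fun x : ℕ => (x : ℝ) ^ δ) atTop atTop :=
    (tendsto_rpow_atTop hδ).comp tendsto_natCast_atTop_atTop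
  exact eventually_atTop.1 (h1.eventually_ge_atTop 4)

/-- the power of `n` -/
lemma pow_bd (δ : ℝ) (hδ : 0 < δ) (E : ℕ) : ∃ C₀ : ℕ, 1 ≤ C₀ ∧ ∀ C : ℕ, C₀ ≤ C → ∀ n : ℕ, 1 ≤ n →
    ((n ^ C : ℕ) : ℝ) ^ (-δ) ≤ 1 / (n : ℝ) ^ E := by
  refine ⟨⌈(E : ℝ) / δ⌉₊ + 1, by omega, fun C hC n hn => ?_⟩
  have hn1 : (1 : ℝ) ≤ n := by exact_mod_cast hn
  have hn0 : (0 : ℝ) < n := by linarith
  rw [Nat.cast_pow, ← Real.rpow_natCast, ← Real.rpow_mul hn0.le, one_div, ← Real.rpow_natCast, ← Real.rpow_neg hn0.le]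
  apply Real.rpow_le_rpow_of_exponent_le hn1
  have h1 := Nat.le_ceil ((E : ℝ) / δ)
  rw [div_le_iff₀ hδ] at h1
  have h2 : ((⌈(E : ℝ) / δ⌉₊ : ℕ) : ℝ) + 1 ≤ C := by exact_mod_cast hC
  nlinarith

lemma pow_bd' {δ : ℝ} {n C E x : ℕ} (hδ : 0 < δ) (hn : 1 ≤ n) (h : ((n ^ C : ℕ) : ℝ) ^ (-δ) ≤ 1 / (n : ℝ) ^ E)
    (hx : n ^ C ≤ x) : (n : ℝ) ^ E ≤ (x : ℝ) ^ δ := by
  have hn0 : (0 : ℝ) < n := by exact_mod_cast hn
  have h0 : (0 : ℝ) < ((n ^ C : ℕ) : ℝ) := by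
    push_cast
    positivity
  rw [Real.rpow_neg h0.le, one_div] at h
  have h1 := (inv_le_inv₀ (Real.rpow_pos_of_pos h0 δ) (by positivity)).1 h
  refine h1.trans ?_
  apply Real.rpow_le_rpow h0.le _ hδ.le
  exact_mod_cast hx

/-- all the given data -/
def P1 (δ : ℝ) (A W C : ℕ) (a d : ℕ → ℤ) (χ : ℕ → ℕ → ℕ) (μ : ℝ) (n v : ℕ) : Prop := ∀ i : ℕ, i < n ^ A →
  ∀ x : ℕ, n ^ C ≤ x → (x : ℝ) ^ W ≤ μ → Up δ (χ i) x (a i) (v + d i)

open Classical in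
theorem bad_one (δ : ℝ) (hδ : 0 < δ) (hδ1 : δ ≤ 1) (A : ℕ) : ∃ W C : ℕ, 1 ≤ W ∧ 1 ≤ C ∧ ∃ n₀ : ℕ, ∀ n : ℕ, n₀ ≤ n →
    ∀ (a d : ℕ → ℤ) (χ : ℕ → ℕ → ℕ), (∀ i, a i ≠ 0 ∧ |a i| ≤ 2 ^ n ^ A) →
    ∀ (μ : ℝ) (q : ℕ), μ ≤ q → 1 ≤ q → (((range q).filter (fun v => ¬ P1 δ A W C a d χ μ n v)).card : ℝ) ≤
      4 / (n : ℝ) ^ 2 * (q : ℝ) := by
  obtain ⟨W, hW, X₀, H⟩ := fine_box (δ / 2) (by linarith) (by linarith)
  obtain ⟨C₁, hC₁, hC₁n⟩ := pow_bd (δ / 4) (by linarith) (A + 2)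
  obtain ⟨C₂, hC₂, hC₂n⟩ := pow_bd (δ / 8) (by linarith) A
  obtain ⟨x₁, hx₁⟩ := pow_ev (δ / 20) (by linarith)
  obtain ⟨x₂, hx₂⟩ := pow_ev (δ / 8) (by linarith)
  obtain ⟨C, hC⟩ : ∃ C, C = C₁ + C₂ := ⟨_, rfl⟩
  refine ⟨W, C, hW, by omega, X₀ + x₁ + x₂ + 1, fun n hn a d χ ha μ q hμ hq => ?_⟩
  haveI : NeZero q := ⟨by omega⟩
  have hn1 : 1 ≤ n := by omega
  have hnC : n ≤ n ^ C := Nat.le_self_pow (by omega) n
  have hq0 : (0 : ℝ) < q := by exact_mod_cast hq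
  set B : ℕ → Finset (ZMod q) := fun i => univ.filter (fun y : ZMod q =>
    ¬ ∀ x : ℕ, n ^ C ≤ x → (x : ℝ) ^ W ≤ μ → Up δ (χ i) x (a i) ((y.val : ℕ) + d i)) with hB
  -- each set
  have hone : ∀ i : ℕ, ((B i).card : ℝ) ≤ 4 / (n : ℝ) ^ (A + 2) * q := by
    intro i
    have h1 := one_count hδ (fun x hx => hx₁ x (by omega)) (fun i _ => by positivity) (H (n ^ C) (by omega) q (d i)) (χ i) (a i)
      (B i) (subset_univ _) (by
      intro y hy hgood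
      rw [hB, mem_filter] at hy
      obtain ⟨-, hbad⟩ := hy
      apply hbad
      intro x hx hxW r j hr hj
      have hx1 : 1 ≤ x := by omega
      have hxp : (0 : ℝ) < x := by exact_mod_cast hx1
      have h2 := hgood x hx (hxW.trans hμ) r j hr hj
      have h4 := hx₂ x (by omega)
      have hlog : Real.log |(a i : ℝ)| / Real.log 2 ≤ (x : ℝ) ^ (δ / 8) := by
        refine le_trans ?_ (pow_bd' (by linarith) hn1 (hC₂n C (by omega) n hn1) hx)
        have hl2 : 0 < Real.log 2 := Real.log_pos (by norm_num)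
        rw [div_le_iff₀ hl2]
        have e : (n : ℝ) ^ A * Real.log 2 = Real.log ((2 : ℝ) ^ (n ^ A)) := by
          rw [Real.log_pow]
          push_cast
          ring
        rw [e]
        apply Real.log_le_log
        · rw [abs_pos]
          exact_mod_cast (ha i).1
        · have h5 := (ha i).2
          rw [← Int.cast_abs]
          exact_mod_cast h5
      have e4 : ((x : ℝ) ^ (δ / 8)) ^ 4 = (x : ℝ) ^ (δ / 2) := by
        rw [← Real.rpow_natCast, ← Real.rpow_mul hxp.le]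
        congr 1
        push_cast
        ring
      have e8 : ((x : ℝ) ^ (δ / 8)) ^ 8 = (x : ℝ) ^ δ := by
        rw [← Real.rpow_natCast, ← Real.rpow_mul hxp.le]
        congr 1
        push_cast
        ring
      have h5 := final_one (md (χ i) r j x) (md (χ i) r j (2 * x)) _ _ _ _ ((x : ℝ) ^ (δ / 8)) (md_nonneg _ _ _ _)
        (md_nonneg _ _ _ _) h4 hlog (sum_dens_le (ha i).1 (χ i) r j x) (sum_dens_le (ha i).1 (χ i) r j (2 * x)) (by rw [e4]; exact h2)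
      rw [e8] at h5
      rw [add_comm ((y.val : ℕ) : ℤ) (d i)]
      exact h5)
    rw [sum_const, nsmul_eq_mul, mul_one_div, div_le_iff₀ hq0] at h1
    refine h1.trans ?_
    apply mul_le_mul_of_nonneg_right _ hq0.le
    have h2 := hC₁n C (by omega) n hn1
    have e : δ / 2 / 2 = δ / 4 := by ring
    rw [e]
    calc 2 * (2 * ((n ^ C : ℕ) : ℝ) ^ (-(δ / 4))) = 4 * ((n ^ C : ℕ) : ℝ) ^ (-(δ / 4)) := by ring
      _ ≤ 4 * (1 / (n : ℝ) ^ (A + 2)) := by linarith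
      _ = _ := by ring
  -- the union
  have hcov : ((range q).filter (fun v => ¬ P1 δ A W C a d χ μ n v)).card ≤ ∑ i ∈ range (n ^ A), (B i).card := by
    calc ((range q).filter (fun v => ¬ P1 δ A W C a d χ μ n v)).card
        ≤ ((range (n ^ A)).biUnion B).card := by
          refine Finset.card_le_card_of_injOn (fun v => ((v : ℕ) : ZMod q)) ?_ ?_
          · intro v hv
            rw [Finset.mem_coe, mem_filter, mem_range] at hv
            obtain ⟨hvq, hv⟩ := hv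
            unfold P1 at hv
            push Not at hv
            obtain ⟨i, hi, x, hx, hxW, hup⟩ := hv
            rw [Finset.mem_coe, mem_biUnion]
            refine ⟨i, mem_range.2 hi, ?_⟩
            rw [hB, mem_filter]
            refine ⟨mem_univ _, ?_⟩
            intro hall
            apply hup
            have := hall x hx hxW
            rw [ZMod.val_natCast_of_lt hvq] at this
            exact this
          · intro v hv v' hv' h
            rw [Finset.mem_coe, mem_filter, mem_range] at hv hv'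
            have h2 := congrArg ZMod.val h
            simp only at h2
            rwa [ZMod.val_natCast_of_lt hv.1, ZMod.val_natCast_of_lt hv'.1] at h2
      _ ≤ _ := card_biUnion_le
  have hcov' : (((range q).filter (fun v => ¬ P1 δ A W C a d χ μ n v)).card : ℝ) ≤ ∑ i ∈ range (n ^ A), ((B i).card : ℝ) := by
    exact_mod_cast hcov
  refine hcov'.trans ?_
  refine (sum_le_sum fun z _ => hone z).trans ?_
  rw [sum_const, card_range, nsmul_eq_mul]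
  have hn0 : (0 : ℝ) < n := by exact_mod_cast hn1
  apply le_of_eq
  push_cast
  rw [pow_add]
  field_simp

/-- for `n ≥ 1` -/
def Q1 (δ : ℝ) (A W C : ℕ) (a d : ℕ → ℤ) (χ : ℕ → ℕ → ℕ) (μ : ℝ) (n v : ℕ) : Prop := 1 ≤ n → P1 δ A W C a d χ μ n v

/-- **one random coefficient** -/
theorem one_main (δ : ℝ) (hδ : 0 < δ) (hδ1 : δ ≤ 1) (A : ℕ) : ∃ W C : ℕ, 1 ≤ W ∧ 1 ≤ C ∧ ∀ (μ : ℕ → ℝ)
    (a d : ℕ → ℕ → ℤ) (χ : ℕ → ℕ → ℕ → ℕ), (∀ n i, a n i ≠ 0 ∧ |a n i| ≤ 2 ^ n ^ A) →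
    ∀ᵐ β : ℝ, 0 < β → ∀ᶠ n : ℕ in atTop, P1 δ A W C (a n) (d n) (χ n) (μ n) n ⌊β * μ n⌋₊ := by
  classical
  obtain ⟨W, C, hW, hC, n₀, H⟩ := bad_one δ hδ hδ1 A
  refine ⟨W, C, hW, hC, fun μ a d χ ha => ?_⟩
  refine ae_one μ (fun n v => Q1 δ A W C (a n) (d n) (χ n) (μ n) n v) ?_ 4 (by norm_num) n₀ ?_ |>.mono fun β hβ h0 => ?_
  · intro n v hμ hn i hi x hx hxW
    exfalso
    have hx1 : (1 : ℝ) ≤ x := by exact_mod_cast (Nat.one_le_pow C n hn).trans hx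
    have h1 : (1 : ℝ) ≤ (x : ℝ) ^ W := one_le_pow₀ hx1
    linarith
  · intro n hn hμ M hM
    refine le_trans ?_ (H n hn (a n) (d n) (χ n) (ha n) (μ n) (qq M (μ n)) (le_qq hM (by linarith)) (by unfold qq; omega))
    refine Nat.cast_le.2 (card_le_card fun v hv => ?_)
    have hv' := mem_filter.1 hv
    exact mem_filter.2 ⟨hv'.1, fun h => hv'.2 fun _ => h⟩
  · filter_upwards [hβ h0, eventually_ge_atTop 1] with n hn h1
    exact hn h1

end Pool.Agent.T9h55.LT
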