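import Pool.Agent.T9h55.LT.OneB

/-! Two random coefficients (helper55). -/

set_option autoImplicit false

namespace Pool.Agent.T9h55.LT

open Finset Filter
open Pool.Agent.R459.Eq
open Pool.Agent.N794.CG
open Pool.Agent.W263.BSD (GoodPrime pointCount)

/-- **pairs of members of two families**, traces and classes -/
theorem pairs_class {ι₁ ι₂ : Type} {Ω₁ : Finset ι₁} {Ω₂ : Finset ι₂} {w₁ : ι₁ → ℝ} {w₂ : ι₂ → ℝ} {v₁ : ι₁ → ℤ} {v₂ : ι₂ → ℤ}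
    (hw₁ : ∀ i ∈ Ω₁, 0 ≤ w₁ i) (hw₂ : ∀ i ∈ Ω₂, 0 ≤ w₂ i) (hs₁ : ∑ i ∈ Ω₁, w₁ i ≤ 1) (hs₂ : ∑ i ∈ Ω₂, w₂ i ≤ 1)
    {δ : ℝ} (hδ : 0 < δ) (hδ1 : δ ≤ 1) {X : ℕ} (hX : 1 ≤ X) (hX4 : ∀ x : ℕ, X ≤ x → 4 ≤ (x : ℝ) ^ (δ / 20))
    {R₁ R₂ : ℕ → Prop} {τ₁ τ₂ : ℝ} (hτ₂ : 0 ≤ τ₂)
    (H₁ : FineAt (δ / 2) X R₁ τ₁ Ω₁ w₁ v₁) (H₂ : FineAt (δ / 2) X R₂ τ₂ Ω₂ w₂ v₂) (χ : ℕ → ℕ)
    (E : Finset (ι₁ × ι₂)) (hE : E ⊆ Ω₁ ×ˢ Ω₂)
    (hbad : ∀ z ∈ E, ∃ x : ℕ, X ≤ x ∧ R₁ x ∧ R₁ (2 * x) ∧ R₂ x ∧ ∃ (r : ℤ) (j : ℕ), |(r : ℝ)| ≤ (x : ℝ) ^ (δ / 10) ∧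
      (j : ℝ) ≤ (x : ℝ) ^ (δ / 10) ∧ 3 * √(max 1 (∑ p ∈ pri (4 * x), dens2 (Tc χ r j) p)) * (x : ℝ) ^ δ <
        |(cntR (Tc χ r j) (v₁ z.1) (v₂ z.2) x : ℝ) - ∑ p ∈ pri x, dens2 (Tc χ r j) p|) :
    ∑ z ∈ E, w₁ z.1 * w₂ z.2 ≤ 2 * (τ₁ + τ₂) := by
  classical
  obtain ⟨B, hB⟩ : ∃ B : ℤ → (ι₁ × ι₂) → Prop, B = fun σ z => ∃ x : ℕ, X ≤ x ∧ R₁ x ∧ R₁ (2 * x) ∧ R₂ x ∧
      ∃ m : ℕ, (m : ℝ) ≤ (x : ℝ) ^ (δ / 2 / 2) ∧
      3 * √(max 1 (∑ p ∈ pri (4 * x), dens2 (Rm χ σ m) p)) * (x : ℝ) ^ (2 * (δ / 2)) <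
        |(cntR (Rm χ σ m) (v₁ z.1) (v₂ z.2) x : ℝ) - ∑ p ∈ pri x, dens2 (Rm χ σ m) p| := ⟨_, rfl⟩
  have hcov : ∀ z ∈ E, B 1 z ∨ B (-1) z := by
    intro z hz
    obtain ⟨x, h1, h2, h3, h4, r, j, hr, hj, hlt⟩ := hbad z hz
    obtain ⟨σ, hσ, hRm⟩ := rm_pair χ r j
    have hm := rm_index hδ (hX4 x h1) hr hj
    have e1 : δ / 4 = δ / 2 / 2 := by ring
    have e2 : 2 * (δ / 2) = δ := by ring
    have hBσ : B σ z := by
      rw [hB]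
      refine ⟨x, h1, h2, h3, h4, Nat.pair r.natAbs j, by rw [← e1]; exact hm, ?_⟩
      rw [hRm, e2]
      exact hlt
    rcases hσ with h | h
    · left
      rw [← h]
      exact hBσ
    · right
      rw [← h]
      exact hBσ
  have hone : ∀ σ : ℤ, σ = 1 ∨ σ = -1 → ∑ z ∈ E.filter (B σ), w₁ z.1 * w₂ z.2 ≤ τ₁ + τ₂ := by
    intro σ hσ
    refine pairs_count hw₁ hw₂ hs₁ hs₂ (by linarith : 0 < δ / 2) (by linarith) hX hτ₂ H₁ H₂ (Rm χ σ)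
      (fun m p hp a a' n n' h h' => tc_per χ _ _ p hp a a' n n' h h') (fun p _ a n Q hQ => rm_few χ hσ p a n Q hQ) (E.filter (B σ))
      ((filter_subset _ _).trans hE) (fun z hz => ?_)
    have h1 := (mem_filter.1 hz).2
    rw [hB] at h1
    exact h1
  have hnn : ∀ z ∈ Ω₁ ×ˢ Ω₂, 0 ≤ w₁ z.1 * w₂ z.2 := fun z hz =>
    mul_nonneg (hw₁ _ (mem_product.1 hz).1) (hw₂ _ (mem_product.1 hz).2)
  have hsplit : E ⊆ E.filter (B 1) ∪ E.filter (B (-1)) := by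
    intro z hz
    rw [mem_union, mem_filter, mem_filter]
    rcases hcov z hz with h | h
    · exact Or.inl ⟨hz, h⟩
    · exact Or.inr ⟨hz, h⟩
  have hsum : ∑ z ∈ E, w₁ z.1 * w₂ z.2 ≤ ∑ z ∈ E.filter (B 1), w₁ z.1 * w₂ z.2 + ∑ z ∈ E.filter (B (-1)), w₁ z.1 * w₂ z.2 := by
    calc ∑ z ∈ E, w₁ z.1 * w₂ z.2 ≤ ∑ z ∈ E.filter (B 1) ∪ E.filter (B (-1)), w₁ z.1 * w₂ z.2 :=
          sum_le_sum_of_subset_of_nonneg hsplit fun z hz _ => hnn z (hE (by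
            rcases mem_union.1 hz with h | h
            · exact (mem_filter.1 h).1
            · exact (mem_filter.1 h).1))
      _ ≤ ∑ z ∈ E.filter (B 1) ∪ E.filter (B (-1)), w₁ z.1 * w₂ z.2 +
          ∑ z ∈ E.filter (B 1) ∩ E.filter (B (-1)), w₁ z.1 * w₂ z.2 := by
          have : 0 ≤ ∑ z ∈ E.filter (B 1) ∩ E.filter (B (-1)), w₁ z.1 * w₂ z.2 :=
            sum_nonneg fun z hz => hnn z (hE (mem_filter.1 (mem_inter.1 hz).1).1)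
          linarith
      _ = _ := sum_union_inter
  have h1 := hone 1 (Or.inl rfl)
  have h2 := hone (-1) (Or.inr rfl)
  linarith

/-- the asymptotic formula for a curve -/
def As (δ : ℝ) (χ : ℕ → ℕ) (x : ℕ) (a n : ℤ) : Prop := ∀ (r : ℤ) (j : ℕ), |(r : ℝ)| ≤ (x : ℝ) ^ (δ / 10) →
  (j : ℝ) ≤ (x : ℝ) ^ (δ / 10) →
  |(cntR (Tc χ r j) a n x : ℝ) - md χ r j x| ≤ 3 * √(max 1 (md χ r j (4 * x))) * (x : ℝ) ^ δ

/-- the change of the range -/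
lemma range_two' {x W : ℕ} {Z : ℝ} (hx : 2 ≤ x) (h : (x : ℝ) ^ (2 * W) ≤ Z) : (x : ℝ) ^ W ≤ Z ∧ ((2 * x : ℕ) : ℝ) ^ W ≤ Z := by
  have hx2 : (2 : ℝ) ≤ x := by exact_mod_cast hx
  have h1 : ((2 * x : ℕ) : ℝ) ^ W ≤ (x : ℝ) ^ (2 * W) := by
    rw [pow_mul]
    apply pow_le_pow_left₀ (Nat.cast_nonneg _)
    push_cast
    nlinarith
  have h2 : (x : ℝ) ^ W ≤ ((2 * x : ℕ) : ℝ) ^ W := by
    apply pow_le_pow_left₀ (Nat.cast_nonneg _)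
    push_cast
    linarith
  exact ⟨h2.trans (h1.trans h), h1.trans h⟩

/-- all the given data -/
def P2 (δ : ℝ) (A W C : ℕ) (c d : ℕ → ℤ) (χ : ℕ → ℕ → ℕ) (lam μ : ℝ) (n u v : ℕ) : Prop := ∀ i : ℕ, i < n ^ A →
  ∀ x : ℕ, n ^ C ≤ x → (x : ℝ) ^ W ≤ lam → (x : ℝ) ^ W ≤ μ → As δ (χ i) x (u + c i) (v + d i)

open Classical in
theorem bad_two (δ : ℝ) (hδ : 0 < δ) (hδ1 : δ ≤ 1) (A : ℕ) : ∃ W C : ℕ, 1 ≤ W ∧ 1 ≤ C ∧ ∃ n₀ : ℕ, ∀ n : ℕ, n₀ ≤ n →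
    ∀ (c d : ℕ → ℤ) (χ : ℕ → ℕ → ℕ) (lam μ : ℝ) (q₁ q₂ : ℕ), lam ≤ q₁ → μ ≤ q₂ → 1 ≤ q₁ → 1 ≤ q₂ →
    (((range q₁ ×ˢ range q₂).filter (fun z : ℕ × ℕ => ¬ P2 δ A W C c d χ lam μ n z.1 z.2)).card : ℝ) ≤
      8 / (n : ℝ) ^ 2 * ((q₁ : ℝ) * (q₂ : ℝ)) := by
  obtain ⟨W, hW, X₀, H⟩ := fine_box (δ / 2) (by linarith) (by linarith)
  obtain ⟨C, hC, hCn⟩ := pow_bd (δ / 4) (by linarith) (A + 2)
  obtain ⟨x₁, hx₁⟩ := pow_ev (δ / 20) (by linarith)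
  refine ⟨2 * W, C, by omega, by omega, X₀ + x₁ + 2, fun n hn c d χ lam μ q₁ q₂ hl hμ hq₁ hq₂ => ?_⟩
  haveI : NeZero q₁ := ⟨by omega⟩
  haveI : NeZero q₂ := ⟨by omega⟩
  have hn1 : 1 ≤ n := by omega
  have hnC : n ≤ n ^ C := Nat.le_self_pow (by omega) n
  have hq₁0 : (0 : ℝ) < q₁ := by exact_mod_cast hq₁
  have hq₂0 : (0 : ℝ) < q₂ := by exact_mod_cast hq₂
  set B : ℕ → Finset (ZMod q₁ × ZMod q₂) := fun i => (univ ×ˢ univ).filter (fun y : ZMod q₁ × ZMod q₂ =>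
    ¬ ∀ x : ℕ, n ^ C ≤ x → (x : ℝ) ^ (2 * W) ≤ lam → (x : ℝ) ^ (2 * W) ≤ μ →
      As δ (χ i) x ((y.1.val : ℕ) + c i) ((y.2.val : ℕ) + d i)) with hB
  have hsum : ∀ q : ℕ, ∀ [NeZero q], ∑ _i ∈ (univ : Finset (ZMod q)), 1 / (q : ℝ) ≤ 1 := by
    intro q _
    rw [sum_const, Finset.card_univ, ZMod.card, nsmul_eq_mul, mul_one_div]
    exact div_self_le_one _
  -- each set
  have hone : ∀ i : ℕ, ((B i).card : ℝ) ≤ 8 / (n : ℝ) ^ (A + 2) * ((q₁ : ℝ) * q₂) := by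
    intro i
    have h1 := pairs_class (Ω₁ := (univ : Finset (ZMod q₁))) (Ω₂ := (univ : Finset (ZMod q₂))) (w₁ := fun _ => 1 / (q₁ : ℝ))
      (w₂ := fun _ => 1 / (q₂ : ℝ)) (fun _ _ => by positivity) (fun _ _ => by positivity) (hsum q₁) (hsum q₂) hδ hδ1
      (by omega : 1 ≤ n ^ C) (fun x hx => hx₁ x (by omega)) (by positivity) (H (n ^ C) (by omega) q₁ (c i))
      (H (n ^ C) (by omega) q₂ (d i)) (χ i) (B i) (filter_subset _ _) (by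
      intro y hy
      rw [hB, mem_filter] at hy
      obtain ⟨-, hbad⟩ := hy
      push Not at hbad
      obtain ⟨x, hx, hxl, hxμ, has⟩ := hbad
      unfold As at has
      push Not at has
      obtain ⟨r, j, hr, hj, hlt⟩ := has
      have hx2 : 2 ≤ x := by omega
      have h2 := range_two' hx2 (hxl.trans hl)
      have h3 := range_two' hx2 (hxμ.trans hμ)
      refine ⟨x, hx, h2.1, h2.2, h3.1, r, j, hr, hj, ?_⟩
      rw [add_comm (c i), add_comm (d i)]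
      exact hlt)
    rw [sum_const, nsmul_eq_mul] at h1
    have h2 := hCn C le_rfl n hn1
    have e : δ / 2 / 2 = δ / 4 := by ring
    rw [e] at h1
    have h3 : ((B i).card : ℝ) * (1 / (q₁ : ℝ) * (1 / q₂)) ≤ 8 / (n : ℝ) ^ (A + 2) := by
      refine h1.trans ?_
      calc 2 * (2 * ((n ^ C : ℕ) : ℝ) ^ (-(δ / 4)) + 2 * ((n ^ C : ℕ) : ℝ) ^ (-(δ / 4))) = 8 * ((n ^ C : ℕ) : ℝ) ^ (-(δ / 4)) := by ring
        _ ≤ 8 * (1 / (n : ℝ) ^ (A + 2)) := by linarith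
        _ = _ := by ring
    have e2 : ((B i).card : ℝ) = ((B i).card : ℝ) * (1 / (q₁ : ℝ) * (1 / q₂)) * ((q₁ : ℝ) * q₂) := by
      field_simp
    rw [e2]
    exact mul_le_mul_of_nonneg_right h3 (by positivity)
  -- the union
  have hcov : ((range q₁ ×ˢ range q₂).filter (fun z : ℕ × ℕ => ¬ P2 δ A (2 * W) C c d χ lam μ n z.1 z.2)).card ≤
      ∑ i ∈ range (n ^ A), (B i).card := by
    calc ((range q₁ ×ˢ range q₂).filter (fun z : ℕ × ℕ => ¬ P2 δ A (2 * W) C c d χ lam μ n z.1 z.2)).card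
        ≤ ((range (n ^ A)).biUnion B).card := by
          refine Finset.card_le_card_of_injOn (fun z => (((z.1 : ℕ) : ZMod q₁), ((z.2 : ℕ) : ZMod q₂))) ?_ ?_
          · rintro ⟨u, v⟩ hv
            rw [Finset.mem_coe, mem_filter, mem_product, mem_range, mem_range] at hv
            obtain ⟨⟨huq, hvq⟩, hv⟩ := hv
            unfold P2 at hv
            push Not at hv
            obtain ⟨i, hi, x, hx, hxl, hxμ, hup⟩ := hv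
            rw [Finset.mem_coe, mem_biUnion]
            refine ⟨i, mem_range.2 hi, ?_⟩
            rw [hB, mem_filter]
            refine ⟨mem_product.2 ⟨mem_univ _, mem_univ _⟩, ?_⟩
            intro hall
            apply hup
            have := hall x hx hxl hxμ
            simp only at this huq hvq
            rw [ZMod.val_natCast_of_lt huq, ZMod.val_natCast_of_lt hvq] at this
            exact this
          · rintro ⟨u, v⟩ hv ⟨u', v'⟩ hv' h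
            rw [Finset.mem_coe, mem_filter, mem_product, mem_range, mem_range] at hv hv'
            have h2 := congrArg ZMod.val (congrArg Prod.fst h)
            have h3 := congrArg ZMod.val (congrArg Prod.snd h)
            simp only at h2 h3 hv hv'
            rw [ZMod.val_natCast_of_lt hv.1.1, ZMod.val_natCast_of_lt hv'.1.1] at h2
            rw [ZMod.val_natCast_of_lt hv.1.2, ZMod.val_natCast_of_lt hv'.1.2] at h3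
            exact Prod.ext h2 h3
      _ ≤ _ := card_biUnion_le
  have hcov' : (((range q₁ ×ˢ range q₂).filter (fun z : ℕ × ℕ => ¬ P2 δ A (2 * W) C c d χ lam μ n z.1 z.2)).card : ℝ) ≤
      ∑ i ∈ range (n ^ A), ((B i).card : ℝ) := by
    exact_mod_cast hcov
  refine hcov'.trans ?_
  refine (sum_le_sum fun z _ => hone z).trans ?_
  rw [sum_const, card_range, nsmul_eq_mul]
  have hn0 : (0 : ℝ) < n := by exact_mod_cast hn1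
  apply le_of_eq
  push_cast
  rw [pow_add]
  field_simp

/-- for `n ≥ 1` -/
def Q2 (δ : ℝ) (A W C : ℕ) (c d : ℕ → ℤ) (χ : ℕ → ℕ → ℕ) (lam μ : ℝ) (n u v : ℕ) : Prop := 1 ≤ n → P2 δ A W C c d χ lam μ n u v

/-- **two random coefficients** -/
theorem two_main (δ : ℝ) (hδ : 0 < δ) (hδ1 : δ ≤ 1) (A : ℕ) : ∃ W C : ℕ, 1 ≤ W ∧ 1 ≤ C ∧ ∀ (lam μ : ℕ → ℝ)
    (c d : ℕ → ℕ → ℤ) (χ : ℕ → ℕ → ℕ → ℕ),
    ∀ᵐ z : ℝ × ℝ, 0 < z.1 → 0 < z.2 → ∀ᶠ n : ℕ in atTop,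
      P2 δ A W C (c n) (d n) (χ n) (lam n) (μ n) n ⌊z.1 * lam n⌋₊ ⌊z.2 * μ n⌋₊ := by
  classical
  obtain ⟨W, C, hW, hC, n₀, H⟩ := bad_two δ hδ hδ1 A
  refine ⟨W, C, hW, hC, fun lam μ c d χ => ?_⟩
  refine ae_two lam μ (fun n u v => Q2 δ A W C (c n) (d n) (χ n) (lam n) (μ n) n u v) ?_ 8 (by norm_num) n₀ ?_ |>.mono
    fun z hz h1 h2 => ?_
  · intro n u v hμ hn i hi x hx hxl hxμ
    exfalso
    have hx1 : (1 : ℝ) ≤ x := by exact_mod_cast (Nat.one_le_pow C n hn).trans hx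
    have h1 : (1 : ℝ) ≤ (x : ℝ) ^ W := one_le_pow₀ hx1
    rcases hμ with h | h <;> linarith
  · intro n hn hl hμ M hM
    refine le_trans ?_ (H n hn (c n) (d n) (χ n) (lam n) (μ n) (qq M (lam n)) (qq M (μ n)) (le_qq hM (by linarith))
      (le_qq hM (by linarith)) (by unfold qq; omega) (by unfold qq; omega))
    refine Nat.cast_le.2 (card_le_card fun v hv => ?_)
    have hv' := mem_filter.1 hv
    exact mem_filter.2 ⟨hv'.1, fun h => hv'.2 fun _ => h⟩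
  · filter_upwards [hz h1 h2, eventually_ge_atTop 1] with n hn h3
    exact hn h3

end Pool.Agent.T9h55.LT
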